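import Pool.Agent.TH79.FS.Twist

/-!
The crossed homomorphism on the automorphism group of a free solvable group and a criterion for
this group not to be finitely generated.
-/

set_option autoImplicit false
set_option linter.unusedSectionVars false
set_option linter.unusedVariables false

namespace Pool.Agent.TH79.FS

open Matrix Filter
open scoped commutatorElement

section Lift

variable {X : Type}

/-- The free solvable group of derived length `d`. -/
abbrev SG (X : Type) (d : ℕ) : Type := FreeGroup X ⧸ derivedSeries (FreeGroup X) d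

/-- A lift of an automorphism to an endomorphism of the free group. -/
noncomputable def lft {d : ℕ} (φ : MulAut (SG X d)) : FreeGroup X →* FreeGroup X :=
  FreeGroup.lift (fun x => Quotient.out (φ (QuotientGroup.mk (FreeGroup.of x))))

theorem mk_lft {d : ℕ} (φ : MulAut (SG X d)) (w : FreeGroup X) :
    (QuotientGroup.mk (lft φ w) : SG X d) = φ (QuotientGroup.mk w) := by
  have h : (QuotientGroup.mk' (derivedSeries (FreeGroup X) d)).comp (lft φ) =
      (φ : SG X d ≃* SG X d).toMonoidHom.comp (QuotientGroup.mk' _) := by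
    apply FreeGroup.ext_hom
    intro x
    simp only [MonoidHom.comp_apply, lft, FreeGroup.lift_apply_of]
    exact Quotient.out_eq _
  exact DFunLike.congr_fun h w

theorem cong_of_mk {d : ℕ} {α α' : FreeGroup X →* FreeGroup X}
    (h : ∀ w, (QuotientGroup.mk (α w) : SG X d) = QuotientGroup.mk (α' w)) : Cong d α α' :=
  fun x => QuotientGroup.eq.mp (h (FreeGroup.of x))

theorem cong_lft_inv {d : ℕ} (φ : MulAut (SG X d)) :
    Cong d (MonoidHom.id _) ((lft φ).comp (lft φ⁻¹)) := by
  apply cong_of_mk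
  intro w
  rw [MonoidHom.comp_apply, mk_lft, mk_lft]
  simp

theorem cong_lft_mul {d : ℕ} (φ ψ : MulAut (SG X d)) :
    Cong d ((lft φ).comp (lft ψ)) (lft (φ * ψ)) := by
  apply cong_of_mk
  intro w
  rw [MonoidHom.comp_apply, mk_lft, mk_lft, mk_lft]
  rfl

theorem cong_comp_inv {d : ℕ} (φ ψ : MulAut (SG X d)) :
    Cong d (MonoidHom.id _) (((lft φ).comp (lft ψ)).comp (lft (φ * ψ)⁻¹)) := by
  apply cong_of_mk
  intro w
  simp only [MonoidHom.comp_apply, mk_lft]
  simp

theorem map_lft_inv {d : ℕ} (φ : MulAut (SG X (d + 1))) (e : Abelianization (FreeGroup X)) :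
    Abelianization.map (lft φ) (Abelianization.map (lft φ⁻¹) e) = e := by
  obtain ⟨w, rfl⟩ := QuotientGroup.mk_surjective e
  have h1 : (QuotientGroup.mk (lft φ (lft φ⁻¹ w)) : SG X (d + 1)) = QuotientGroup.mk w := by
    rw [mk_lft, mk_lft]; exact φ.apply_symm_apply _
  have h2 := QuotientGroup.eq.mp h1
  have h3 := ab_of_mem h2
  rw [map_mul, map_inv, inv_mul_eq_one] at h3
  exact h3

theorem map_lft_inv' {d : ℕ} (φ : MulAut (SG X (d + 1))) (e : Abelianization (FreeGroup X)) :
    Abelianization.map (lft φ⁻¹) (Abelianization.map (lft φ) e) = e := by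
  have := map_lft_inv φ⁻¹ e
  rwa [inv_inv] at this

end Lift

section Crossed

variable {X ι k P : Type} [Fintype X] [DecidableEq X] [Fintype ι] [DecidableEq ι] [CommRing k]
  [Group P]

/-- The crossed homomorphism. -/
noncomputable def EE {d : ℕ} (R0 : P →* Matrix ι ι (DualNumber k)) (θ : FreeGroup X →* P)
    (φ : MulAut (SG X d)) : LL k X := dl (jac (twist R0 θ) (lft φ))

theorem EE_eq {e : ℕ} {lev : ι → ℕ} {R0 : P →* Matrix ι ι (DualNumber k)}
    (h : PGood e lev R0) (θ : FreeGroup X →* P) (φ : MulAut (SG X (e + 3)))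
    (α : FreeGroup X →* FreeGroup X)
    (hα : ∀ w, (QuotientGroup.mk (α w) : SG X (e + 3)) = φ (QuotientGroup.mk w)) :
    dl (jac (twist R0 θ) α) = EE R0 θ φ := by
  refine dl_congr (good_twist h θ) (cong_lft_inv φ) (cong_of_mk fun w => ?_)
  rw [mk_lft, hα]

theorem EE_one {e : ℕ} {lev : ι → ℕ} {R0 : P →* Matrix ι ι (DualNumber k)}
    (h : PGood e lev R0) (θ : FreeGroup X →* P) : EE R0 θ (1 : MulAut (SG X (e + 3))) = 0 := by
  rw [← EE_eq h θ 1 (MonoidHom.id _) (fun w => rfl), jac_id, dl, sn_one, Matrix.mul_zero,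
    Matrix.trace_zero]

theorem EE_mul {e : ℕ} {lev : ι → ℕ} {R0 : P →* Matrix ι ι (DualNumber k)}
    (h : PGood e lev R0) (θ : FreeGroup X →* P) (φ ψ : MulAut (SG X (e + 3))) :
    EE R0 θ (φ * ψ) = hact k (lft φ) (EE R0 (θ.comp (lft φ)) ψ) + EE R0 θ φ := by
  have h1 : EE R0 θ (φ * ψ) = dl (jac (twist R0 θ) ((lft φ).comp (lft ψ))) :=
    dl_congr (good_twist h θ) (cong_comp_inv φ ψ) (cong_lft_mul φ ψ)
  rw [h1, jac_comp, twist_comp, jac_mapRep]
  have h2 := jac_left_inv (good_twist h (θ.comp (lft φ))) (cong_lft_inv ψ)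
  have h3 := jac_left_inv (good_twist h θ) (cong_lft_inv φ)
  rw [dl_mul _ (isUnit_of_left_inv h3), dl_map _ h2]
  · rfl
  · rw [fs_dmap]
    apply isUnit_of_left_inv (H := (fs (jac ((twist R0 (θ.comp (lft φ))).comp (lft ψ))
      (lft ψ⁻¹))).map (hact k (lft φ)))
    rw [← Matrix.map_mul, h2, Matrix.map_one _ (map_zero _) (map_one _)]

/-- No exponent in the support is a nontrivial `m`-th power. -/
def Fr (m : ℕ) (f : LL k X) : Prop :=
  ∀ e : Abelianization (FreeGroup X), e ≠ 1 → (∃ g, e = g ^ m) → f.coeff e = 0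

theorem Fr.add {m : ℕ} {f g : LL k X} (hf : Fr m f) (hg : Fr m g) : Fr m (f + g) := by
  intro e h1 h2
  rw [MonoidAlgebra.coeff_add, Finsupp.add_apply, hf e h1 h2, hg e h1 h2, add_zero]

theorem Fr.hact {m d : ℕ} {f : LL k X} (hf : Fr m f) (φ : MulAut (SG X (d + 1))) :
    Fr m (hact k (lft φ) f) := by
  intro e h1 h2
  have hinj : Function.Injective (Abelianization.map (lft φ)) := by
    intro a b hab
    rw [← map_lft_inv' φ a, hab, map_lft_inv' φ b]
  have h3 : (FS.hact k (lft φ) f).coeff e = f.coeff (Abelianization.map (lft φ⁻¹) e) := by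
    have := Finsupp.mapDomain_apply hinj f.coeff (Abelianization.map (lft φ⁻¹) e)
    rw [map_lft_inv] at this
    exact this
  rw [h3]
  apply hf
  · intro h4
    apply h1
    rw [← map_lft_inv φ e, h4, map_one]
  · obtain ⟨g, rfl⟩ := h2
    exact ⟨Abelianization.map (lft φ⁻¹) g, by rw [map_pow]⟩

/-- Exponent vector. -/
noncomputable def expo (X : Type) [DecidableEq X] :
    Abelianization (FreeGroup X) →* Multiplicative (X → ℤ) :=
  Abelianization.lift (FreeGroup.lift (fun x => Multiplicative.ofAdd (Pi.single x 1)))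

/-- The inverse of the exponent vector. -/
noncomputable def expoInv (X : Type) [Fintype X] :
    Multiplicative (X → ℤ) →* Abelianization (FreeGroup X) where
  toFun f := ∏ x, Abelianization.of (FreeGroup.of x) ^ (f.toAdd x)
  map_one' := by simp
  map_mul' f g := by simp [_root_.zpow_add, Finset.prod_mul_distrib]

theorem expoInv_expo (e : Abelianization (FreeGroup X)) : expoInv X (expo X e) = e := by
  have h : (expoInv X).comp (expo X) = MonoidHom.id _ := by
    apply Abelianization.hom_ext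
    apply FreeGroup.ext_hom
    intro x
    simp only [MonoidHom.comp_apply, expo, Abelianization.lift_apply_of, FreeGroup.lift_apply_of,
      MonoidHom.id_apply]
    show ∏ y, Abelianization.of (FreeGroup.of y) ^ ((Pi.single x 1 : X → ℤ) y) = _
    rw [Finset.prod_eq_single x]
    · simp
    · intro y _ hy
      rw [Pi.single_eq_of_ne hy, zpow_zero]
    · intro hx
      exact (hx (Finset.mem_univ x)).elim
  exact DFunLike.congr_fun h e

theorem eventually_not_pow (e : Abelianization (FreeGroup X)) (he : e ≠ 1) :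
    ∀ᶠ m : ℕ in atTop, ¬ ∃ g, e = g ^ m := by
  have h1 : expo X e ≠ 1 := by
    intro h
    apply he
    rw [← expoInv_expo e, h, map_one]
  obtain ⟨x, hx⟩ : ∃ x, (expo X e).toAdd x ≠ 0 := by
    by_contra hcon
    push Not at hcon
    exact h1 (by
      apply Multiplicative.toAdd.injective
      funext x
      exact hcon x)
  filter_upwards [eventually_gt_atTop ((expo X e).toAdd x).natAbs] with m hm
  rintro ⟨g, rfl⟩
  have h3 : (expo X (g ^ m)).toAdd x = (m : ℤ) * (expo X g).toAdd x := by
    rw [map_pow, toAdd_pow, Pi.smul_apply, nsmul_eq_mul]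
  rw [h3] at hm hx
  rw [Int.natAbs_mul, Int.natAbs_natCast] at hm
  have h4 : (expo X g).toAdd x ≠ 0 := right_ne_zero_of_mul hx
  have h5 : 1 ≤ ((expo X g).toAdd x).natAbs :=
    Nat.one_le_iff_ne_zero.mpr (Int.natAbs_ne_zero.mpr h4)
  nlinarith

theorem eventually_Fr (f : LL k X) : ∀ᶠ m : ℕ in atTop, Fr m f := by
  have h1 : ∀ᶠ m : ℕ in atTop, ∀ e ∈ f.coeff.support, e ≠ 1 → ¬ ∃ g, e = g ^ m := by
    rw [Filter.eventually_all_finset]
    intro e _
    by_cases he : e = 1
    · exact Filter.Eventually.of_forall fun m h => (h he).elim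
    · filter_upwards [eventually_not_pow e he] with m hm _ using hm
  filter_upwards [h1] with m hm e he hg
  by_contra hcon
  exact hm e (Finsupp.mem_support_iff.mpr hcon) he hg

/-- The criterion. -/
theorem not_fg [Finite P] {e : ℕ} {lev : ι → ℕ} {R0 : P →* Matrix ι ι (DualNumber k)}
    (h : PGood e lev R0) (θ₀ : FreeGroup X →* P)
    (hw : ∀ N, ∃ m, N ≤ m ∧ ∃ φ : MulAut (SG X (e + 3)), ¬ Fr m (EE R0 θ₀ φ)) :
    ¬ Group.FG (MulAut (SG X (e + 3))) := by
  intro hfg
  have hfg' : Monoid.FG (MulAut (SG X (e + 3))) := Group.fg_iff_monoid_fg.mp hfg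
  obtain ⟨s, hs⟩ := hfg'.fg_top
  have hfin : Finite (FreeGroup X →* P) :=
    Finite.of_equiv (X → P) FreeGroup.lift
  have h1 : ∀ᶠ m : ℕ in atTop, ∀ φ ∈ s, ∀ θ : FreeGroup X →* P, Fr m (EE R0 θ φ) := by
    rw [Filter.eventually_all_finset]
    intro φ _
    rw [Filter.eventually_all]
    intro θ
    exact eventually_Fr _
  obtain ⟨N, hN⟩ := Filter.eventually_atTop.mp h1
  obtain ⟨m, hm, φ, hφ⟩ := hw N
  let M : Submonoid (MulAut (SG X (e + 3))) :=
    { carrier := {φ | ∀ θ : FreeGroup X →* P, Fr m (EE R0 θ φ)}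
      one_mem' := by
        intro θ
        rw [EE_one h θ]
        intro _ _ _
        rfl
      mul_mem' := by
        intro φ ψ hφ hψ θ
        rw [EE_mul h]
        exact (Fr.hact (hψ _) φ).add (hφ θ) }
  have hM : M = ⊤ := by
    rw [eq_top_iff, ← hs, Submonoid.closure_le]
    intro φ hφ
    exact hN m hm φ hφ
  exact hφ ((hM ▸ Submonoid.mem_top φ : φ ∈ M) θ₀)

end Crossed

end Pool.Agent.TH79.FS
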