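import Pool.Agent.TH79.FS.Detect

/-!
The base representation: matrices over the dual numbers of `ZMod 5` which are upper triangular
modulo epsilon.
-/

set_option autoImplicit false
set_option linter.unusedSectionVars false
set_option linter.unusedVariables false

namespace Pool.Agent.TH79.FS

open Matrix Filter
open scoped commutatorElement

/-- The data needed for derived length `e + 3`. -/
def Dat (e : ℕ) : Prop :=
  ∃ (P : Type) (_ : Group P) (_ : Finite P) (ι : Type) (_ : Fintype ι) (_ : DecidableEq ι)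
    (lev : ι → ℕ) (R0 : P →* Matrix ι ι (DualNumber (ZMod 5))), PGood e lev R0 ∧
    ∃ a b c : P, ∃ y ∈ derivedSeries (FreeGroup (Fin 2)) (e + 2), ∀ m : ℕ, m % 4 = 1 →
      (sn (R0 (FreeGroup.lift ![a, b] y)) * fs (R0 c) ^ m).trace ≠ 0

abbrev D5 : Type := DualNumber (ZMod 5)

/-- The element `x + y ε`. -/
def dn (x y : ZMod 5) : D5 := TrivSqZeroExt.inl x + TrivSqZeroExt.inr y

@[simp] theorem fst_dn (x y : ZMod 5) : TrivSqZeroExt.fst (dn x y) = x := by simp [dn]
@[simp] theorem snd_dn (x y : ZMod 5) : TrivSqZeroExt.snd (dn x y) = y := by simp [dn]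

theorem dn_mul (x y x' y' : ZMod 5) : dn x y * dn x' y' = dn (x * x') (x * y' + y * x') := by
  ext
  · simp
  · rw [DualNumber.snd_mul]; simp

theorem dn_add (x y x' y' : ZMod 5) : dn x y + dn x' y' = dn (x + x') (y + y') := by
  ext <;> simp

theorem dn_zero : dn 0 0 = 0 := by ext <;> simp
theorem dn_one : dn 1 0 = 1 := by ext <;> simp

/-- The group of units which are upper triangular modulo epsilon. -/
def Iw : Subgroup (Matrix (Fin 2) (Fin 2) D5)ˣ where
  carrier := {g | fs g.val 1 0 = 0 ∧ fs g⁻¹.val 1 0 = 0}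
  one_mem' := by
    constructor
    · rw [Units.val_one, fs_one]; rfl
    · rw [inv_one, Units.val_one, fs_one]; rfl
  mul_mem' := by
    rintro a b ⟨ha, ha'⟩ ⟨hb, hb'⟩
    constructor
    · rw [Units.val_mul, fs_mul, Matrix.mul_apply, Fin.sum_univ_two, ha, hb]; ring
    · rw [_root_.mul_inv_rev, Units.val_mul, fs_mul, Matrix.mul_apply, Fin.sum_univ_two, ha', hb']; ring
  inv_mem' := by
    rintro a ⟨ha, ha'⟩
    exact ⟨ha', by rw [inv_inv]; exact ha⟩

instance : Finite D5 := inferInstanceAs (Finite (ZMod 5 × ZMod 5))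
instance : Finite Iw := inferInstance

/-- The tautological representation. -/
def RI : Iw →* Matrix (Fin 2) (Fin 2) D5 := (Units.coeHom _).comp Iw.subtype

theorem RI_low (g : Iw) : fs (RI g) 1 0 = 0 := g.2.1

theorem RI_mul_00 (g h : Iw) : fs (RI (g * h)) 0 0 = fs (RI g) 0 0 * fs (RI h) 0 0 := by
  rw [map_mul, fs_mul, Matrix.mul_apply, Fin.sum_univ_two, RI_low h, mul_zero, add_zero]

theorem RI_mul_11 (g h : Iw) : fs (RI (g * h)) 1 1 = fs (RI g) 1 1 * fs (RI h) 1 1 := by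
  rw [map_mul, fs_mul, Matrix.mul_apply, Fin.sum_univ_two, RI_low g, zero_mul, zero_add]

/-- Diagonal characters. -/
def chi0 : Iw →* ZMod 5 where
  toFun g := fs (RI g) 0 0
  map_one' := by rw [map_one, fs_one]; rfl
  map_mul' := RI_mul_00
/-- Diagonal characters. -/
def chi1 : Iw →* ZMod 5 where
  toFun g := fs (RI g) 1 1
  map_one' := by rw [map_one, fs_one]; rfl
  map_mul' := RI_mul_11

theorem chi_comm (χ : Iw →* ZMod 5) (g : Iw) (hg : g ∈ derivedSeries Iw 1) : χ g = 1 := by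
  rw [derivedSeries_one] at hg
  have h1 := Abelianization.commutator_subset_ker χ.toHomUnits hg
  have h2 : χ.toHomUnits g = 1 := h1
  have h3 := congrArg Units.val h2
  exact h3

theorem RI_one_comm (g h : Iw) (hg : g ∈ derivedSeries Iw 1) (hh : h ∈ derivedSeries Iw 1) :
    fs (RI (g * h)) 0 1 = fs (RI g) 0 1 + fs (RI h) 0 1 ∧
    sn (RI (g * h)) 1 0 = sn (RI g) 1 0 + sn (RI h) 1 0 := by
  have g0 : fs (RI g) 0 0 = 1 := chi_comm chi0 g hg
  have g1 : fs (RI g) 1 1 = 1 := chi_comm chi1 g hg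
  have h0 : fs (RI h) 0 0 = 1 := chi_comm chi0 h hh
  have h1 : fs (RI h) 1 1 = 1 := chi_comm chi1 h hh
  constructor
  · rw [map_mul, fs_mul, Matrix.mul_apply, Fin.sum_univ_two, g0, h1]; ring
  · rw [map_mul, sn_mul, Matrix.add_apply, Matrix.mul_apply, Matrix.mul_apply, Fin.sum_univ_two,
      Fin.sum_univ_two, g1, h0, RI_low g, RI_low h]; ring

/-- The congruence subgroup containing the second derived subgroup. -/
def Cg : Subgroup Iw where
  carrier := {g | fs (RI g) = 1 ∧ sn (RI g) 1 0 = 0}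
  one_mem' := by
    constructor
    · rw [map_one, fs_one]
    · rw [map_one, sn_one]; rfl
  mul_mem' := by
    rintro a b ⟨ha, ha'⟩ ⟨hb, hb'⟩
    constructor
    · rw [map_mul, fs_mul, ha, hb, Matrix.mul_one]
    · rw [map_mul, sn_mul, ha, hb, Matrix.mul_one, Matrix.one_mul, Matrix.add_apply, ha', hb',
        add_zero]
  inv_mem' := by
    rintro a ⟨ha, ha'⟩
    have h1 : RI a * RI a⁻¹ = 1 := by rw [← map_mul, mul_inv_cancel, map_one]
    have h2 : fs (RI a⁻¹) = 1 := by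
      have := congrArg fs h1
      rwa [fs_mul, ha, Matrix.one_mul, fs_one] at this
    refine ⟨h2, ?_⟩
    have := congrArg sn h1
    rw [sn_mul, ha, h2, Matrix.mul_one, Matrix.one_mul, sn_one] at this
    have h3 := congrFun (congrFun this 1) 0
    rw [Matrix.add_apply, ha', add_zero] at h3
    exact h3

theorem derived_two_le : derivedSeries Iw (1 + 1) ≤ Cg := by
  rw [derivedSeries_succ, Subgroup.commutator_le]
  intro g hg h hh
  have hu : ⁅g, h⁆ ∈ derivedSeries Iw 1 := by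
    rw [commutatorElement_def]
    exact mul_mem (mul_mem (mul_mem hg hh) (inv_mem hg)) (inv_mem hh)
  have e : ⁅g, h⁆ * (h * g) = g * h := by rw [commutatorElement_def]; group
  obtain ⟨p1, p2⟩ := RI_one_comm _ _ hu (mul_mem hh hg)
  obtain ⟨q1, q2⟩ := RI_one_comm _ _ hh hg
  obtain ⟨r1, r2⟩ := RI_one_comm _ _ hg hh
  rw [e, q1, r1] at p1
  rw [e, q2, r2] at p2
  have t1 : fs (RI ⁅g, h⁆) 0 1 = 0 := by linear_combination -p1
  have t2 : sn (RI ⁅g, h⁆) 1 0 = 0 := by linear_combination -p2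
  refine ⟨?_, t2⟩
  ext i j
  fin_cases i <;> fin_cases j
  · exact chi_comm chi0 _ hu
  · exact t1
  · exact RI_low _
  · exact chi_comm chi1 _ hu

theorem pgood_base : PGood 0 (fun i : Fin 2 => (i : ℕ)) RI where
  pA g := by
    intro i j hij
    fin_cases i <;> fin_cases j <;> simp at hij
    exact RI_low g
  pB g hg := by
    intro i j hij
    rw [Matrix.sub_apply]
    fin_cases i <;> fin_cases j <;> simp at hij
    · have := chi_comm chi0 g hg
      show chi0 g - 1 = 0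
      rw [this, sub_self]
    · show fs (RI g) 1 0 - 0 = 0
      rw [RI_low, sub_zero]
    · have := chi_comm chi1 g hg
      show chi1 g - 1 = 0
      rw [this, sub_self]
  pC g hg := by
    obtain ⟨h1, h2⟩ := derived_two_le hg
    refine ⟨h1, ?_⟩
    intro i j hij
    fin_cases i <;> fin_cases j <;> simp at hij
    exact h2

/-- First generator. -/
def gA : Iw := ⟨⟨!![dn 2 0, dn 0 0; dn 0 0, dn 1 0], !![dn 3 0, dn 0 0; dn 0 0, dn 1 0],
    by rw [Matrix.mul_fin_two, Matrix.one_fin_two]; simp only [dn_mul, dn_add, ← dn_one, ← dn_zero]; congr,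
    by rw [Matrix.mul_fin_two, Matrix.one_fin_two]; simp only [dn_mul, dn_add, ← dn_one, ← dn_zero]; congr⟩,
  by constructor <;> simp [fs_apply]⟩

/-- Second generator. -/
def gB : Iw := ⟨⟨!![dn 1 1, dn 1 0; dn 0 1, dn 1 0], !![dn 1 0, dn 4 0; dn 0 4, dn 1 1],
    by rw [Matrix.mul_fin_two, Matrix.one_fin_two]; simp only [dn_mul, dn_add, ← dn_one, ← dn_zero]; congr,
    by rw [Matrix.mul_fin_two, Matrix.one_fin_two]; simp only [dn_mul, dn_add, ← dn_one, ← dn_zero]; congr⟩,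
  by constructor <;> simp [fs_apply]⟩

theorem RI_gA : RI gA = !![dn 2 0, dn 0 0; dn 0 0, dn 1 0] := rfl
theorem RI_gA_inv : RI gA⁻¹ = !![dn 3 0, dn 0 0; dn 0 0, dn 1 0] := rfl
theorem RI_gB : RI gB = !![dn 1 1, dn 1 0; dn 0 1, dn 1 0] := rfl
theorem RI_gB_inv : RI gB⁻¹ = !![dn 1 0, dn 4 0; dn 0 4, dn 1 1] := rfl

theorem RI_z : RI ⁅gA, gB⁆ = !![dn 1 4, dn 1 1; dn 0 2, dn 1 3] := by
  rw [commutatorElement_def, map_mul, map_mul, map_mul, RI_gA, RI_gB, RI_gA_inv, RI_gB_inv]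
  simp only [Matrix.mul_fin_two, dn_mul, dn_add]
  congr

theorem RI_z_inv : RI ⁅gA, gB⁆⁻¹ = !![dn 1 3, dn 4 4; dn 0 3, dn 1 4] := by
  rw [commutatorElement_inv, commutatorElement_def, map_mul, map_mul, map_mul, RI_gA, RI_gB,
    RI_gA_inv, RI_gB_inv]
  simp only [Matrix.mul_fin_two, dn_mul, dn_add]
  congr

theorem RI_y : RI ⁅⁅gA, gB⁆, gA * ⁅gA, gB⁆ * gA⁻¹⁆ = !![dn 1 2, dn 0 0; dn 0 0, dn 1 3] := by
  rw [commutatorElement_def ⁅gA, gB⁆, _root_.mul_inv_rev, _root_.mul_inv_rev, inv_inv]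
  simp only [map_mul, RI_z, RI_z_inv, RI_gA, RI_gA_inv]
  simp only [Matrix.mul_fin_two, dn_mul, dn_add]
  congr

/-- The word used for derived length three. -/
def y0 : FreeGroup (Fin 2) :=
  ⁅⁅(FreeGroup.of 0 : FreeGroup (Fin 2)), (FreeGroup.of 1 : FreeGroup (Fin 2))⁆,
    (FreeGroup.of 0 : FreeGroup (Fin 2)) *
      ⁅(FreeGroup.of 0 : FreeGroup (Fin 2)), (FreeGroup.of 1 : FreeGroup (Fin 2))⁆ *
      (FreeGroup.of 0 : FreeGroup (Fin 2))⁻¹⁆

theorem dat_zero : Dat 0 := by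
  refine ⟨Iw, inferInstance, inferInstance, Fin 2, inferInstance, inferInstance,
    fun i => (i : ℕ), RI, pgood_base, gA, gB, gA,
    y0, ?_, ?_⟩
  · have h1 : ⁅(FreeGroup.of 0 : FreeGroup (Fin 2)), FreeGroup.of 1⁆ ∈
        derivedSeries (FreeGroup (Fin 2)) 1 := by
      rw [derivedSeries_one]
      exact Subgroup.commutator_mem_commutator (Subgroup.mem_top _) (Subgroup.mem_top _)
    have h2 := (derivedSeries_normal (FreeGroup (Fin 2)) 1).conj_mem _ h1 (FreeGroup.of 0)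
    exact Subgroup.commutator_mem_commutator h1 h2
  · intro m hm
    have h1 : FreeGroup.lift ![gA, gB] y0 = ⁅⁅gA, gB⁆, gA * ⁅gA, gB⁆ * gA⁻¹⁆ := by
      simp only [y0, map_commutatorElement, map_mul, map_inv, FreeGroup.lift_apply_of]
      rfl
    rw [h1, RI_y, RI_gA]
    have h2 : sn (!![dn 1 2, dn 0 0; dn 0 0, dn 1 3] : Matrix (Fin 2) (Fin 2) D5) =
        Matrix.diagonal ![2, 3] := by
      ext i j
      fin_cases i <;> fin_cases j <;> simp [sn_apply, Matrix.diagonal]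
    have h3 : fs (!![dn 2 0, dn 0 0; dn 0 0, dn 1 0] : Matrix (Fin 2) (Fin 2) D5) =
        Matrix.diagonal ![2, 1] := by
      ext i j
      fin_cases i <;> fin_cases j <;> simp [fs_apply, Matrix.diagonal]
    rw [h2, h3, Matrix.diagonal_pow, Matrix.diagonal_mul_diagonal, Matrix.trace_diagonal,
      Fin.sum_univ_two]
    have h4 : (2 : ZMod 5) ^ m = 2 := by
      obtain ⟨q, hq⟩ : ∃ q, m = 4 * q + 1 := ⟨m / 4, by omega⟩
      rw [hq, pow_add, pow_mul, show (2 : ZMod 5) ^ 4 = 1 by decide, one_pow, one_mul, pow_one]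
    have h5 : (![2, 1] ^ m : Fin 2 → ZMod 5) 0 = 2 := h4
    have h6 : (![2, 1] ^ m : Fin 2 → ZMod 5) 1 = 1 := one_pow m
    rw [h5, h6]
    show (2 : ZMod 5) * 2 + 3 * 1 ≠ 0
    decide

end Pool.Agent.TH79.FS
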