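import Pool.Agent.TH79.FS.Wild

/-!
Detection of the wild automorphisms `x₀ ↦ x₀ x₀ᵐ y x₀⁻ᵐ`.
-/

set_option autoImplicit false
set_option linter.unusedSectionVars false
set_option linter.unusedVariables false

namespace Pool.Agent.TH79.FS

open Matrix Filter
open scoped commutatorElement

section Detect

variable {X ι k P : Type} [Fintype X] [DecidableEq X] [Fintype ι] [DecidableEq ι] [CommRing k]
  [Group P]

theorem fs_pow {R : Type} [CommRing R] (M : Matrix ι ι (DualNumber R)) (m : ℕ) :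
    fs (M ^ m) = fs M ^ m := by
  induction m with
  | zero => rw [pow_zero, pow_zero, fs_one]
  | succ m ih => rw [pow_succ, pow_succ, fs_mul, ih]

theorem fs_sum {R α : Type} [CommRing R] (s : Finset α) (f : α → Matrix ι ι (DualNumber R)) :
    fs (∑ x ∈ s, f x) = ∑ x ∈ s, fs (f x) := by
  classical
  induction s using Finset.induction_on with
  | empty => simp [fs_zero]
  | insert a s ha ih => rw [Finset.sum_insert ha, Finset.sum_insert ha, fs_add, ih]

theorem dl_wild_pow {R : Type} [CommRing R] (ρ : FreeGroup X →* Matrix ι ι (DualNumber R))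
    (x₀ : X) {y : FreeGroup X} (hy0 : y ∈ away x₀) (hy : fs (ρ y) = 1) (m : ℕ) :
    dl (jac ρ (wild x₀ (FreeGroup.of x₀ ^ m * y * (FreeGroup.of x₀ ^ m)⁻¹))) =
      -∑ j ∈ Finset.range m, (sn (ρ y) * fs (ρ (FreeGroup.of x₀)) ^ (j + 1)).trace := by
  rw [dl_wild ρ x₀ hy0 hy, foxb_pow, fs_sum]
  set a := fs (ρ (FreeGroup.of x₀)) with ha
  set s := FreeGroup.of x₀ ^ m with hs
  have hA : fs (ρ s) = a ^ m := by rw [hs, map_pow, fs_pow]
  have hA' : fs (ρ s⁻¹) * a ^ m = 1 := by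
    rw [← hA, ← fs_mul, ← map_mul, inv_mul_cancel, map_one, fs_one]
  simp only [fs_pow, ← ha]
  set S := ∑ j ∈ Finset.range m, a ^ j with hS
  have hcomm : Commute S (a ^ m) := by
    rw [hS]
    exact Commute.sum_left _ _ _ (fun j _ => (Commute.refl a).pow_pow j m)
  have e1 : (a * (fs (ρ s) * sn (ρ y) * fs (ρ s⁻¹)) * S).trace = (sn (ρ y) * (S * a)).trace := by
    rw [hA]
    have : a * (a ^ m * sn (ρ y) * fs (ρ s⁻¹)) * S = (a * a ^ m) * (sn (ρ y) * fs (ρ s⁻¹) * S) := by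
      simp only [Matrix.mul_assoc]
    rw [this, Matrix.trace_mul_comm]
    congr 1
    have h2 : a * a ^ m = a ^ m * a := by rw [← pow_succ', ← pow_succ]
    rw [h2]
    calc sn (ρ y) * fs (ρ s⁻¹) * S * (a ^ m * a)
        = sn (ρ y) * (fs (ρ s⁻¹) * (S * a ^ m)) * a := by simp only [Matrix.mul_assoc]
      _ = sn (ρ y) * (fs (ρ s⁻¹) * (a ^ m * S)) * a := by rw [hcomm.eq]
      _ = sn (ρ y) * ((fs (ρ s⁻¹) * a ^ m) * S) * a := by simp only [Matrix.mul_assoc]
      _ = sn (ρ y) * (S * a) := by rw [hA', Matrix.one_mul, Matrix.mul_assoc]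
  rw [e1, hS, Finset.sum_mul, Finset.mul_sum, Matrix.trace_sum]
  rfl

theorem of_pow_inj (x₀ : X) {i j : ℕ}
    (h : (Abelianization.of (FreeGroup.of x₀) : Abelianization (FreeGroup X)) ^ i =
      Abelianization.of (FreeGroup.of x₀) ^ j) : i = j := by
  have h1 := congrArg (expo X) h
  rw [map_pow, map_pow] at h1
  have h2 : ∀ n : ℕ, ((expo X (Abelianization.of (FreeGroup.of x₀))) ^ n).toAdd x₀ = (n : ℤ) := by
    intro n
    rw [toAdd_pow, Pi.smul_apply]
    simp [expo]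
  have h3 := congrArg (fun f : Multiplicative (X → ℤ) => f.toAdd x₀) h1
  simp only [h2] at h3
  exact_mod_cast h3

theorem coeff_wild {e : ℕ} {lev : ι → ℕ} {R0 : P →* Matrix ι ι (DualNumber k)}
    (h : PGood e lev R0) (θ : FreeGroup X →* P) (x₀ : X) {y : FreeGroup X}
    (hy : y ∈ derivedSeries (FreeGroup X) (e + 2)) (hy0 : y ∈ away x₀) (m : ℕ) (hm : 1 ≤ m)
    (φ : MulAut (SG X (e + 3)))
    (hφ : ∀ w, (QuotientGroup.mk (wild x₀ (FreeGroup.of x₀ ^ m * y * (FreeGroup.of x₀ ^ m)⁻¹) w) :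
      SG X (e + 3)) = φ (QuotientGroup.mk w)) :
    (EE R0 θ φ).coeff (Abelianization.of (FreeGroup.of x₀) ^ m) =
      -(sn (R0 (θ y)) * fs (R0 (θ (FreeGroup.of x₀))) ^ m).trace := by
  classical
  rw [← EE_eq h θ φ _ hφ, dl_wild_pow _ x₀ hy0 ((good_twist h θ).hC y hy).1 m]
  have hterm : ∀ j, (sn (twist R0 θ y) * fs (twist R0 θ (FreeGroup.of x₀)) ^ (j + 1)).trace =
      MonoidAlgebra.single (Abelianization.of (FreeGroup.of x₀) ^ (j + 1))
        (sn (R0 (θ y)) * fs (R0 (θ (FreeGroup.of x₀))) ^ (j + 1)).trace := by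
    intro j
    rw [sn_twist, fs_twist, ab_of_mem (n := e + 1) hy, map_one, one_smul, smul_pow,
      Matrix.mul_smul, Matrix.trace_smul, ← map_pow]
    have h1 : ((fs (R0 (θ (FreeGroup.of x₀)))).map
        (MonoidAlgebra.singleOneRingHom (R := k) (M := Abelianization (FreeGroup X)))) ^ (j + 1) =
        ((fs (R0 (θ (FreeGroup.of x₀)))) ^ (j + 1)).map MonoidAlgebra.singleOneRingHom := by
      have := map_pow (MonoidAlgebra.singleOneRingHom (R := k)
        (M := Abelianization (FreeGroup X))).mapMatrix (fs (R0 (θ (FreeGroup.of x₀)))) (j + 1)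
      exact this.symm
    rw [h1, ← Matrix.map_mul]
    have h2 : ∀ M : Matrix ι ι k, (M.map (MonoidAlgebra.singleOneRingHom (R := k)
        (M := Abelianization (FreeGroup X)))).trace =
        MonoidAlgebra.singleOneRingHom (R := k) (M := Abelianization (FreeGroup X)) M.trace := by
      intro M
      rw [Matrix.trace, Matrix.trace, map_sum]
      rfl
    rw [h2]
    simp [MonoidAlgebra.singleOneRingHom, MonoidAlgebra.single_mul_single]
  simp only [hterm]
  rw [MonoidAlgebra.coeff_neg, Finsupp.neg_apply]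
  congr 1
  have h3 : (∑ j ∈ Finset.range m, (MonoidAlgebra.single
      (Abelianization.of (FreeGroup.of x₀) ^ (j + 1))
        (sn (R0 (θ y)) * fs (R0 (θ (FreeGroup.of x₀))) ^ (j + 1)).trace : LL k X)).coeff
          (Abelianization.of (FreeGroup.of x₀) ^ m) =
      ∑ j ∈ Finset.range m, (MonoidAlgebra.single (Abelianization.of (FreeGroup.of x₀) ^ (j + 1))
        (sn (R0 (θ y)) * fs (R0 (θ (FreeGroup.of x₀))) ^ (j + 1)).trace : LL k X).coeff
          (Abelianization.of (FreeGroup.of x₀) ^ m) := by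
    rw [MonoidAlgebra.coeff_sum, Finsupp.finsetSum_apply]
  rw [h3, Finset.sum_eq_single (m - 1)]
  · rw [Nat.sub_add_cancel hm, MonoidAlgebra.coeff_single, Finsupp.single_eq_same]
  · intro j hj hjm
    rw [MonoidAlgebra.coeff_single, Finsupp.single_apply, if_neg]
    intro h4
    have := of_pow_inj x₀ h4
    omega
  · intro h4
    exact (h4 (Finset.mem_range.mpr (by omega))).elim

/-- The general criterion. -/
theorem not_fg_of_trace [Finite P] {e : ℕ} {lev : ι → ℕ} {R0 : P →* Matrix ι ι (DualNumber k)}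
    (h : PGood e lev R0) (θ : FreeGroup X →* P) (x₀ : X) {y : FreeGroup X}
    (hy : y ∈ derivedSeries (FreeGroup X) (e + 2)) (hy0 : y ∈ away x₀)
    (htr : ∀ N : ℕ, ∃ m, N ≤ m ∧
      (sn (R0 (θ y)) * fs (R0 (θ (FreeGroup.of x₀))) ^ m).trace ≠ 0) :
    ¬ Group.FG (MulAut (SG X (e + 3))) := by
  apply not_fg h θ
  intro N
  obtain ⟨m, hm, ht⟩ := htr (N + 1)
  obtain ⟨φ, hφ⟩ := exists_wild_aut x₀ hy hy0 (FreeGroup.of x₀ ^ m)
  refine ⟨m, by omega, φ, fun hFr => ht ?_⟩
  have h1 := coeff_wild h θ x₀ hy hy0 m (by omega) φ hφ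
  rw [hFr _ ?_ ⟨_, rfl⟩] at h1
  · exact neg_eq_zero.mp h1.symm
  · intro h2
    have := of_pow_inj x₀ (i := m) (j := 0) (by rw [pow_zero]; exact h2)
    omega

end Detect

end Pool.Agent.TH79.FS
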