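import Pool.Agent.TH79.FS.Fox

/-!
Matrices over dual numbers, triangularity with respect to a level function, and the behaviour of
the Fox Jacobian for representations which are solvable of derived length `e + 3`.
-/

set_option autoImplicit false
set_option linter.unusedSectionVars false
set_option linter.unusedVariables false

namespace Pool.Agent.TH79.FS

open Matrix
open scoped commutatorElement

section Tri

variable {R : Type} [CommRing R] {l m n : Type}

/-- Constant part. -/
def fs (M : Matrix m n (DualNumber R)) : Matrix m n R := M.map TrivSqZeroExt.fst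
/-- Coefficient of epsilon. -/
def sn (M : Matrix m n (DualNumber R)) : Matrix m n R := M.map TrivSqZeroExt.snd

theorem fs_apply (M : Matrix m n (DualNumber R)) (i : m) (j : n) :
    fs M i j = TrivSqZeroExt.fst (M i j) := rfl
theorem sn_apply (M : Matrix m n (DualNumber R)) (i : m) (j : n) :
    sn M i j = TrivSqZeroExt.snd (M i j) := rfl

theorem fs_mul [Fintype n] (M : Matrix m n (DualNumber R)) (N : Matrix n l (DualNumber R)) :
    fs (M * N) = fs M * fs N := by
  ext i j
  simp [fs_apply, Matrix.mul_apply, TrivSqZeroExt.fst_sum]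

theorem sn_mul [Fintype n] (M : Matrix m n (DualNumber R)) (N : Matrix n l (DualNumber R)) :
    sn (M * N) = fs M * sn N + sn M * fs N := by
  ext i j
  simp only [sn_apply, fs_apply, Matrix.mul_apply, Matrix.add_apply, TrivSqZeroExt.snd_sum,
    ← Finset.sum_add_distrib]
  refine Finset.sum_congr rfl fun k _ => ?_
  rw [DualNumber.snd_mul]

theorem fs_add (M N : Matrix m n (DualNumber R)) : fs (M + N) = fs M + fs N := rfl
theorem sn_add (M N : Matrix m n (DualNumber R)) : sn (M + N) = sn M + sn N := rfl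
theorem fs_sub (M N : Matrix m n (DualNumber R)) : fs (M - N) = fs M - fs N := rfl
theorem sn_sub (M N : Matrix m n (DualNumber R)) : sn (M - N) = sn M - sn N := rfl
theorem fs_neg (M : Matrix m n (DualNumber R)) : fs (-M) = -fs M := rfl
theorem sn_neg (M : Matrix m n (DualNumber R)) : sn (-M) = -sn M := rfl
theorem fs_zero : fs (0 : Matrix m n (DualNumber R)) = 0 := rfl
theorem sn_zero : sn (0 : Matrix m n (DualNumber R)) = 0 := rfl

theorem fs_one [DecidableEq n] : fs (1 : Matrix n n (DualNumber R)) = 1 := by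
  ext i j
  rw [fs_apply, Matrix.one_apply, Matrix.one_apply]
  split_ifs <;> simp

theorem sn_one [DecidableEq n] : sn (1 : Matrix n n (DualNumber R)) = 0 := by
  ext i j
  rw [sn_apply, Matrix.one_apply]
  split_ifs <;> simp

/-- Upper triangular with shift `s` with respect to level functions. -/
def UT (a : m → ℕ) (b : n → ℕ) (s : ℕ) (M : Matrix m n R) : Prop :=
  ∀ i j, b j < a i + s → M i j = 0

theorem UT.mul [Fintype n] {a : m → ℕ} {b : n → ℕ} {c : l → ℕ} {s t : ℕ} {M : Matrix m n R}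
    {N : Matrix n l R} (hM : UT a b s M) (hN : UT b c t N) : UT a c (s + t) (M * N) := by
  intro i j h
  rw [Matrix.mul_apply]
  refine Finset.sum_eq_zero fun k _ => ?_
  by_cases h1 : b k < a i + s
  · rw [hM i k h1, zero_mul]
  · rw [hN k j (by omega), mul_zero]

theorem UT.add {a : m → ℕ} {b : n → ℕ} {s : ℕ} {M N : Matrix m n R} (hM : UT a b s M)
    (hN : UT a b s N) : UT a b s (M + N) := by
  intro i j h
  rw [Matrix.add_apply, hM i j h, hN i j h, add_zero]

theorem UT.sub {a : m → ℕ} {b : n → ℕ} {s : ℕ} {M N : Matrix m n R} (hM : UT a b s M)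
    (hN : UT a b s N) : UT a b s (M - N) := by
  intro i j h
  rw [Matrix.sub_apply, hM i j h, hN i j h, sub_zero]

theorem UT.neg {a : m → ℕ} {b : n → ℕ} {s : ℕ} {M : Matrix m n R} (hM : UT a b s M) :
    UT a b s (-M) := by
  intro i j h
  rw [Matrix.neg_apply, hM i j h, neg_zero]

theorem UT.zero {a : m → ℕ} {b : n → ℕ} {s : ℕ} : UT a b s (0 : Matrix m n R) :=
  fun _ _ _ => rfl

theorem UT.one [DecidableEq n] {a : n → ℕ} : UT a a 0 (1 : Matrix n n R) := by
  intro i j h
  rw [Matrix.one_apply, if_neg]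
  rintro rfl
  omega

theorem UT.mono {a : m → ℕ} {b : n → ℕ} {s t : ℕ} {M : Matrix m n R} (hM : UT a b s M)
    (h : t ≤ s) : UT a b t M := fun i j hij => hM i j (by omega)

theorem UT.trace [Fintype n] {a : n → ℕ} {M : Matrix n n R} (hM : UT a a 1 M) : M.trace = 0 := by
  rw [Matrix.trace]
  exact Finset.sum_eq_zero fun i _ => hM i i (by omega)

/-- Logarithmic derivative of the determinant. -/
noncomputable def dl [Fintype n] [DecidableEq n] (G : Matrix n n (DualNumber R)) : R :=
  ((fs G)⁻¹ * sn G).trace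

theorem dl_mul [Fintype n] [DecidableEq n] {G H : Matrix n n (DualNumber R)}
    (hG : IsUnit (fs G)) (hH : IsUnit (fs H)) : dl (G * H) = dl G + dl H := by
  have hG' := (Matrix.isUnit_iff_isUnit_det _).mp hG
  have hH' := (Matrix.isUnit_iff_isUnit_det _).mp hH
  unfold dl
  rw [fs_mul, sn_mul, Matrix.mul_inv_rev, Matrix.mul_add, Matrix.trace_add]
  have e1 : (fs H)⁻¹ * (fs G)⁻¹ * (fs G * sn H) = (fs H)⁻¹ * sn H := by
    rw [Matrix.mul_assoc, Matrix.nonsing_inv_mul_cancel_left _ _ hG']
  have e2 : ((fs H)⁻¹ * (fs G)⁻¹ * (sn G * fs H)).trace = ((fs G)⁻¹ * sn G).trace := by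
    rw [Matrix.mul_assoc, Matrix.trace_mul_comm, ← Matrix.mul_assoc, Matrix.mul_assoc,
      Matrix.mul_nonsing_inv _ hH', Matrix.mul_one]
  rw [e1, e2, add_comm]

theorem dl_of_left_inv [Fintype n] [DecidableEq n] {G : Matrix n n (DualNumber R)}
    {H : Matrix n n R} (h : H * fs G = 1) : dl G = (H * sn G).trace := by
  rw [dl, Matrix.inv_eq_left_inv h]

theorem isUnit_of_left_inv [Fintype n] [DecidableEq n] {G H : Matrix n n R} (h : H * G = 1) :
    IsUnit G := by
  rw [Matrix.isUnit_iff_isUnit_det]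
  exact Matrix.isUnit_det_of_left_inverse h

end Tri

section Good

variable {X ι R : Type} [Fintype ι] [DecidableEq ι] [CommRing R]

/-- The conditions on a representation: triangular modulo epsilon, the derived subgroup of step
`e + 1` is unipotent modulo epsilon, and the derived subgroup of step `e + 2` is trivial modulo
epsilon with triangular epsilon part. -/
structure Good (e : ℕ) (lev : ι → ℕ) (ρ : FreeGroup X →* Matrix ι ι (DualNumber R)) : Prop where
  hA : ∀ w, UT lev lev 0 (fs (ρ w))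
  hB : ∀ w ∈ derivedSeries (FreeGroup X) (e + 1), UT lev lev 1 (fs (ρ w) - 1)
  hC : ∀ w ∈ derivedSeries (FreeGroup X) (e + 2), fs (ρ w) = 1 ∧ UT lev lev 0 (sn (ρ w))

theorem mem_derived_of_hom {G H : Type} [Group G] [Group H] (f : G →* H) {n : ℕ} {w : G}
    (hw : w ∈ derivedSeries G n) : f w ∈ derivedSeries H n :=
  map_derivedSeries_le_derivedSeries f n (Subgroup.mem_map_of_mem f hw)

theorem Good.comp {e : ℕ} {lev : ι → ℕ} {ρ : FreeGroup X →* Matrix ι ι (DualNumber R)}
    (h : Good e lev ρ) (α : FreeGroup X →* FreeGroup X) : Good e lev (ρ.comp α) where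
  hA w := h.hA (α w)
  hB w hw := h.hB _ (mem_derived_of_hom α hw)
  hC w hw := h.hC _ (mem_derived_of_hom α hw)

/-- Level function on the index set of the Jacobian. -/
def levK (X : Type) (lev : ι → ℕ) : X × ι → ℕ := fun p => lev p.2

variable [DecidableEq X]

theorem fox_ut0 {e : ℕ} {lev : ι → ℕ} {ρ : FreeGroup X →* Matrix ι ι (DualNumber R)}
    (h : Good e lev ρ) (w : FreeGroup X) : UT lev (levK X lev) 0 (fs (fox ρ w)) := by
  have hd := isDer_fox ρ
  induction w using FreeGroup.induction_on with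
  | C1 => rw [hd.one]; exact UT.zero
  | of x =>
    rw [fox_of]
    intro i q hq
    rw [fs_apply]
    simp only [unitRow, Matrix.of_apply]
    rw [if_neg]
    · simp
    · rintro rfl
      simp [levK] at hq
  | inv_of x ih =>
    rw [hd.inv, fs_neg, fs_mul]
    exact ((h.hA _).mul ih).neg
  | mul a b ha hb =>
    rw [hd, fs_add, fs_mul]
    exact ha.add ((h.hA _).mul hb)

theorem fox_ut1 {e : ℕ} {lev : ι → ℕ} {ρ : FreeGroup X →* Matrix ι ι (DualNumber R)}
    (h : Good e lev ρ) : ∀ w ∈ derivedSeries (FreeGroup X) (e + 2),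
      UT lev (levK X lev) 1 (fs (fox ρ w)) := by
  have hd := isDer_fox ρ
  let H : Subgroup (FreeGroup X) :=
    { carrier := {w | UT lev (levK X lev) 1 (fs (fox ρ w))}
      one_mem' := by
        show UT lev (levK X lev) 1 (fs (fox ρ 1))
        rw [hd.one]; exact UT.zero
      mul_mem' := by
        intro a b ha hb
        show UT lev (levK X lev) 1 (fs (fox ρ (a * b)))
        rw [hd, fs_add, fs_mul]
        have := (h.hA a).mul hb
        rw [zero_add] at this
        exact UT.add ha this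
      inv_mem' := by
        intro a ha
        show UT lev (levK X lev) 1 (fs (fox ρ a⁻¹))
        rw [hd.inv, fs_neg, fs_mul]
        have := (h.hA a⁻¹).mul ha
        rw [zero_add] at this
        exact this.neg }
  have hle : derivedSeries (FreeGroup X) (e + 2) ≤ H := by
    rw [derivedSeries_succ, Subgroup.commutator_le]
    intro a ha b hb
    show UT lev (levK X lev) 1 (fs (fox ρ ⁅a, b⁆))
    rw [hd.commutator, fs_add, fs_mul, fs_mul, fs_sub, fs_sub, fs_one]
    have h1 : a * b * a⁻¹ ∈ derivedSeries (FreeGroup X) (e + 1) :=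
      mul_mem (mul_mem ha hb) (inv_mem ha)
    have h2 : ⁅a, b⁆ ∈ derivedSeries (FreeGroup X) (e + 1) := by
      rw [commutatorElement_def]
      exact mul_mem h1 (inv_mem hb)
    have h3 : UT lev lev 1 (1 - fs (ρ (a * b * a⁻¹))) := by
      have := (h.hB _ h1).neg
      rwa [neg_sub] at this
    have h4 : UT lev lev 1 (fs (ρ a) - fs (ρ ⁅a, b⁆)) := by
      have := (h.hB _ ha).sub (h.hB _ h2)
      rwa [sub_sub_sub_cancel_right] at this
    exact (h3.mul (fox_ut0 h a)).add (h4.mul (fox_ut0 h b))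
  exact fun w hw => hle hw

theorem fox_es {e : ℕ} {lev : ι → ℕ} {ρ : FreeGroup X →* Matrix ι ι (DualNumber R)}
    (h : Good e lev ρ) : ∀ w ∈ derivedSeries (FreeGroup X) (e + 3),
      fs (fox ρ w) = 0 ∧ UT lev (levK X lev) 1 (sn (fox ρ w)) := by
  have hd := isDer_fox ρ
  let H : Subgroup (FreeGroup X) :=
    { carrier := {w | fs (fox ρ w) = 0 ∧ UT lev (levK X lev) 1 (sn (fox ρ w))}
      one_mem' := by
        show fs (fox ρ 1) = 0 ∧ UT lev (levK X lev) 1 (sn (fox ρ 1))
        rw [hd.one]; exact ⟨rfl, UT.zero⟩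
      mul_mem' := by
        rintro a b ⟨ha, ha'⟩ ⟨hb, hb'⟩
        show fs (fox ρ (a * b)) = 0 ∧ UT lev (levK X lev) 1 (sn (fox ρ (a * b)))
        rw [hd, fs_add, fs_mul, sn_add, sn_mul, ha, hb, Matrix.mul_zero, Matrix.mul_zero, add_zero,
          add_zero]
        have := (h.hA a).mul hb'
        rw [zero_add] at this
        exact ⟨rfl, ha'.add this⟩
      inv_mem' := by
        rintro a ⟨ha, ha'⟩
        show fs (fox ρ a⁻¹) = 0 ∧ UT lev (levK X lev) 1 (sn (fox ρ a⁻¹))
        rw [hd.inv, fs_neg, fs_mul, sn_neg, sn_mul, ha, Matrix.mul_zero, Matrix.mul_zero, add_zero,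
          neg_zero]
        have := (h.hA a⁻¹).mul ha'
        rw [zero_add] at this
        exact ⟨rfl, this.neg⟩ }
  have hle : derivedSeries (FreeGroup X) (e + 3) ≤ H := by
    rw [derivedSeries_succ, Subgroup.commutator_le]
    intro a ha b hb
    show fs (fox ρ ⁅a, b⁆) = 0 ∧ UT lev (levK X lev) 1 (sn (fox ρ ⁅a, b⁆))
    rw [hd.commutator, fs_add, fs_mul, fs_mul, fs_sub, fs_sub, fs_one, sn_add, sn_mul, sn_mul,
      fs_sub, fs_sub, sn_sub, sn_sub, fs_one, sn_one]
    have h1 : a * b * a⁻¹ ∈ derivedSeries (FreeGroup X) (e + 2) :=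
      mul_mem (mul_mem ha hb) (inv_mem ha)
    have h2 : ⁅a, b⁆ ∈ derivedSeries (FreeGroup X) (e + 2) := by
      rw [commutatorElement_def]
      exact mul_mem h1 (inv_mem hb)
    rw [(h.hC _ h1).1, (h.hC _ ha).1, (h.hC _ h2).1, sub_self, Matrix.zero_mul, Matrix.zero_mul,
      Matrix.zero_mul, Matrix.zero_mul, zero_add, zero_sub]
    refine ⟨by simp, ?_⟩
    have e1 : UT lev lev 0 (-sn (ρ (a * b * a⁻¹))) := (h.hC _ h1).2.neg
    have e2 : UT lev lev 0 (sn (ρ a) - sn (ρ ⁅a, b⁆)) := (h.hC _ ha).2.sub (h.hC _ h2).2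
    have f1 := e1.mul (fox_ut1 h a ha)
    have f2 := e2.mul (fox_ut1 h b hb)
    rw [zero_add] at f1 f2
    simpa only [zero_add] using f1.add f2
  exact fun w hw => hle hw

variable [Fintype X]

omit [Fintype X] in
theorem jac_ut {e : ℕ} {lev : ι → ℕ} {ρ : FreeGroup X →* Matrix ι ι (DualNumber R)}
    (h : Good e lev ρ) (α : FreeGroup X →* FreeGroup X) :
    UT (levK X lev) (levK X lev) 0 (fs (jac ρ α)) :=
  fun p q hpq => fox_ut0 h (α (FreeGroup.of p.1)) p.2 q hpq

/-- Two endomorphisms are congruent modulo the derived subgroup of step `n`. -/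
def Cong (n : ℕ) (α α' : FreeGroup X →* FreeGroup X) : Prop :=
  ∀ x, (α (FreeGroup.of x))⁻¹ * α' (FreeGroup.of x) ∈ derivedSeries (FreeGroup X) n

omit [Fintype X] in
theorem jac_congr {e : ℕ} {lev : ι → ℕ} {ρ : FreeGroup X →* Matrix ι ι (DualNumber R)}
    (h : Good e lev ρ) {α α' : FreeGroup X →* FreeGroup X} (hc : Cong (e + 3) α α') :
    fs (jac ρ α') = fs (jac ρ α) ∧
      UT (levK X lev) (levK X lev) 1 (sn (jac ρ α') - sn (jac ρ α)) := by
  have hd := isDer_fox ρ
  have key : ∀ x, fox ρ (α' (FreeGroup.of x)) = fox ρ (α (FreeGroup.of x)) +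
      ρ (α (FreeGroup.of x)) * fox ρ ((α (FreeGroup.of x))⁻¹ * α' (FreeGroup.of x)) := by
    intro x
    rw [← hd, mul_inv_cancel_left]
  constructor
  · ext p q
    show fs (fox ρ (α' (FreeGroup.of p.1))) p.2 q = fs (fox ρ (α (FreeGroup.of p.1))) p.2 q
    rw [key, fs_add, fs_mul, (fox_es h _ (hc p.1)).1, Matrix.mul_zero, add_zero]
  · intro p q hpq
    have e1 : (sn (jac ρ α') - sn (jac ρ α)) p q =
        (sn (fox ρ (α' (FreeGroup.of p.1))) - sn (fox ρ (α (FreeGroup.of p.1)))) p.2 q := rfl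
    rw [e1, key, sn_add, sn_mul, (fox_es h _ (hc p.1)).1, Matrix.mul_zero, add_zero,
      add_sub_cancel_left]
    have := (h.hA (α (FreeGroup.of p.1))).mul (fox_es h _ (hc p.1)).2
    exact this p.2 q (by rw [zero_add]; exact hpq)

theorem jac_left_inv {e : ℕ} {lev : ι → ℕ} {ρ : FreeGroup X →* Matrix ι ι (DualNumber R)}
    (h : Good e lev ρ) {α γ : FreeGroup X →* FreeGroup X}
    (hc : Cong (e + 3) (MonoidHom.id _) (α.comp γ)) :
    fs (jac (ρ.comp α) γ) * fs (jac ρ α) = 1 := by
  rw [← fs_mul, ← jac_comp, (jac_congr h hc).1, jac_id, fs_one]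

theorem dl_congr {e : ℕ} {lev : ι → ℕ} {ρ : FreeGroup X →* Matrix ι ι (DualNumber R)}
    (h : Good e lev ρ) {α α' γ : FreeGroup X →* FreeGroup X}
    (hc : Cong (e + 3) (MonoidHom.id _) (α.comp γ)) (hcc : Cong (e + 3) α α') :
    dl (jac ρ α') = dl (jac ρ α) := by
  have h1 := jac_left_inv h hc
  obtain ⟨h2, h3⟩ := jac_congr h hcc
  have h4 : fs (jac (ρ.comp α) γ) * fs (jac ρ α') = 1 := by rw [h2]; exact h1
  rw [dl_of_left_inv h1, dl_of_left_inv h4, ← sub_eq_zero, ← Matrix.trace_sub, ← Matrix.mul_sub]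
  have h5 := (jac_ut (h.comp α) γ).mul h3
  rw [zero_add] at h5
  exact h5.trace

end Good

end Pool.Agent.TH79.FS
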