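import Mathlib

/-!
Fox derivatives of words with respect to a matrix representation of a free group, written as
matrices, and the chain rule.
-/

set_option autoImplicit false

namespace Pool.Agent.TH79.FS

open Matrix
open scoped commutatorElement

section Der

variable {X ι κ A : Type} [Fintype ι] [DecidableEq ι] [CommRing A]

/-- Pairs `(v, w)` with the semidirect product multiplication given by `ρ`. -/
@[ext] structure Sd (ρ : FreeGroup X →* Matrix ι ι A) (κ : Type) where
  v : Matrix ι κ A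
  w : FreeGroup X

instance (ρ : FreeGroup X →* Matrix ι ι A) : Mul (Sd ρ κ) :=
  ⟨fun a b => ⟨a.v + ρ a.w * b.v, a.w * b.w⟩⟩
instance (ρ : FreeGroup X →* Matrix ι ι A) : One (Sd ρ κ) := ⟨⟨0, 1⟩⟩
instance (ρ : FreeGroup X →* Matrix ι ι A) : Inv (Sd ρ κ) :=
  ⟨fun a => ⟨-(ρ a.w⁻¹ * a.v), a.w⁻¹⟩⟩

theorem Sd.mul_v {ρ : FreeGroup X →* Matrix ι ι A} (a b : Sd ρ κ) :
    (a * b).v = a.v + ρ a.w * b.v := rfl
theorem Sd.mul_w {ρ : FreeGroup X →* Matrix ι ι A} (a b : Sd ρ κ) : (a * b).w = a.w * b.w := rfl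
theorem Sd.one_v {ρ : FreeGroup X →* Matrix ι ι A} : (1 : Sd ρ κ).v = 0 := rfl
theorem Sd.one_w {ρ : FreeGroup X →* Matrix ι ι A} : (1 : Sd ρ κ).w = 1 := rfl
theorem Sd.inv_v {ρ : FreeGroup X →* Matrix ι ι A} (a : Sd ρ κ) :
    (a⁻¹).v = -(ρ a.w⁻¹ * a.v) := rfl
theorem Sd.inv_w {ρ : FreeGroup X →* Matrix ι ι A} (a : Sd ρ κ) : (a⁻¹).w = a.w⁻¹ := rfl

instance (ρ : FreeGroup X →* Matrix ι ι A) : Group (Sd ρ κ) :=
  Group.ofLeftAxioms
    (by
      intro a b c
      ext1
      · simp only [Sd.mul_v, Sd.mul_w, map_mul, Matrix.mul_add, Matrix.mul_assoc]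
        abel
      · simp only [Sd.mul_w, mul_assoc])
    (by
      intro a
      ext1
      · simp only [Sd.mul_v, Sd.one_v, Sd.one_w, map_one, Matrix.one_mul, zero_add]
      · simp only [Sd.mul_w, Sd.one_w, one_mul])
    (by
      intro a
      ext1
      · simp only [Sd.mul_v, Sd.one_v, Sd.inv_v, Sd.inv_w]
        abel
      · simp only [Sd.mul_w, Sd.inv_w, Sd.one_w, inv_mul_cancel])

/-- The derivation with given values on the generators. -/
noncomputable def der (ρ : FreeGroup X →* Matrix ι ι A) (v : X → Matrix ι κ A)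
    (w : FreeGroup X) : Matrix ι κ A :=
  (FreeGroup.lift (fun x => (⟨v x, FreeGroup.of x⟩ : Sd ρ κ)) w).v

theorem der_w (ρ : FreeGroup X →* Matrix ι ι A) (v : X → Matrix ι κ A) (w : FreeGroup X) :
    (FreeGroup.lift (fun x => (⟨v x, FreeGroup.of x⟩ : Sd ρ κ)) w).w = w := by
  let f : Sd ρ κ →* FreeGroup X := MonoidHom.mk' Sd.w (fun a b => rfl)
  have h : f.comp (FreeGroup.lift (fun x => (⟨v x, FreeGroup.of x⟩ : Sd ρ κ))) =
      MonoidHom.id _ := by
    apply FreeGroup.ext_hom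
    intro x
    simp [f]
  exact DFunLike.congr_fun h w

@[simp] theorem der_of (ρ : FreeGroup X →* Matrix ι ι A) (v : X → Matrix ι κ A) (x : X) :
    der ρ v (FreeGroup.of x) = v x := by
  simp [der]

theorem der_mul (ρ : FreeGroup X →* Matrix ι ι A) (v : X → Matrix ι κ A) (a b : FreeGroup X) :
    der ρ v (a * b) = der ρ v a + ρ a * der ρ v b := by
  unfold der
  rw [map_mul, Sd.mul_v, der_w]

/-- A function satisfying the Leibniz rule. -/
def IsDer (ρ : FreeGroup X →* Matrix ι ι A) (δ : FreeGroup X → Matrix ι κ A) : Prop :=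
  ∀ a b, δ (a * b) = δ a + ρ a * δ b

theorem isDer_der (ρ : FreeGroup X →* Matrix ι ι A) (v : X → Matrix ι κ A) :
    IsDer ρ (der ρ v) := der_mul ρ v

theorem IsDer.one {ρ : FreeGroup X →* Matrix ι ι A} {δ : FreeGroup X → Matrix ι κ A}
    (h : IsDer ρ δ) : δ 1 = 0 := by
  have := h 1 1
  simpa using this

theorem IsDer.inv {ρ : FreeGroup X →* Matrix ι ι A} {δ : FreeGroup X → Matrix ι κ A}
    (h : IsDer ρ δ) (a : FreeGroup X) : δ a⁻¹ = -(ρ a⁻¹ * δ a) := by
  have := h a⁻¹ a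
  rw [inv_mul_cancel, h.one] at this
  exact eq_neg_of_add_eq_zero_left this.symm

theorem IsDer.commutator {ρ : FreeGroup X →* Matrix ι ι A} {δ : FreeGroup X → Matrix ι κ A}
    (h : IsDer ρ δ) (a b : FreeGroup X) :
    δ ⁅a, b⁆ = (1 - ρ (a * b * a⁻¹)) * δ a + (ρ a - ρ ⁅a, b⁆) * δ b := by
  rw [commutatorElement_def, h (a * b * a⁻¹) b⁻¹, h (a * b) a⁻¹, h a b, h.inv a, h.inv b]
  simp only [map_mul, Matrix.sub_mul, Matrix.one_mul, Matrix.mul_neg, Matrix.mul_assoc]
  abel

theorem IsDer.ext {ρ : FreeGroup X →* Matrix ι ι A} {δ δ' : FreeGroup X → Matrix ι κ A}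
    (h : IsDer ρ δ) (h' : IsDer ρ δ') (hx : ∀ x, δ (FreeGroup.of x) = δ' (FreeGroup.of x))
    (w : FreeGroup X) : δ w = δ' w := by
  induction w using FreeGroup.induction_on with
  | C1 => rw [h.one, h'.one]
  | of x => exact hx x
  | inv_of x _ => rw [h.inv, h'.inv, hx]
  | mul a b ha hb => rw [h, h', ha, hb]

end Der

section Fox

variable {X ι A : Type} [Fintype X] [DecidableEq X] [Fintype ι] [DecidableEq ι] [CommRing A]

/-- The block row with identity block at `x`. -/
def unitRow (A : Type) [CommRing A] (ι : Type) [DecidableEq ι] {X : Type} [DecidableEq X]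
    (x : X) : Matrix ι (X × ι) A :=
  Matrix.of fun i q => if q = (x, i) then 1 else 0

omit [Fintype X] in
theorem unitRow_mul {κ : Type} [Fintype X] (x : X) (M : Matrix (X × ι) κ A) (i : ι) (q : κ) :
    (unitRow A ι x * M) i q = M (x, i) q := by
  simp [unitRow, Matrix.mul_apply]

/-- The Fox derivative of a word, all the blocks in one row. -/
noncomputable def fox (ρ : FreeGroup X →* Matrix ι ι A) (w : FreeGroup X) :
    Matrix ι (X × ι) A := der ρ (fun x => unitRow A ι x) w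

omit [Fintype X] in
@[simp] theorem fox_of (ρ : FreeGroup X →* Matrix ι ι A) (x : X) :
    fox ρ (FreeGroup.of x) = unitRow A ι x := der_of _ _ _

omit [Fintype X] in
theorem isDer_fox (ρ : FreeGroup X →* Matrix ι ι A) : IsDer ρ (fox (X := X) ρ) := der_mul _ _

/-- The Fox Jacobian of an endomorphism. -/
noncomputable def jac (ρ : FreeGroup X →* Matrix ι ι A) (α : FreeGroup X →* FreeGroup X) :
    Matrix (X × ι) (X × ι) A :=
  Matrix.of fun p q => fox ρ (α (FreeGroup.of p.1)) p.2 q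

theorem chain (ρ : FreeGroup X →* Matrix ι ι A) (β : FreeGroup X →* FreeGroup X)
    (w : FreeGroup X) : fox ρ (β w) = fox (ρ.comp β) w * jac ρ β := by
  have h1 : IsDer (ρ.comp β) (fun w => fox ρ (β w)) := by
    intro a b
    show fox ρ (β (a * b)) = _
    rw [map_mul, isDer_fox ρ]
    rfl
  have h2 : IsDer (ρ.comp β) (fun w => fox (ρ.comp β) w * jac ρ β) := by
    intro a b
    show fox (ρ.comp β) (a * b) * jac ρ β = _
    rw [isDer_fox (ρ.comp β), Matrix.add_mul, Matrix.mul_assoc]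
  refine h1.ext h2 (fun x => ?_) w
  ext i q
  show fox ρ (β (FreeGroup.of x)) i q = (fox (ρ.comp β) (FreeGroup.of x) * jac ρ β) i q
  rw [fox_of, unitRow_mul]
  rfl

theorem jac_comp (ρ : FreeGroup X →* Matrix ι ι A) (β α : FreeGroup X →* FreeGroup X) :
    jac ρ (β.comp α) = jac (ρ.comp β) α * jac ρ β := by
  ext p q
  show fox ρ (β (α (FreeGroup.of p.1))) p.2 q = _
  rw [chain]
  rfl

omit [Fintype X] in
theorem jac_id (ρ : FreeGroup X →* Matrix ι ι A) : jac ρ (MonoidHom.id _) = 1 := by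
  ext p q
  obtain ⟨x, i⟩ := p
  simp only [jac, MonoidHom.id_apply, fox_of, unitRow, Matrix.of_apply, Matrix.one_apply]
  by_cases h : q = (x, i)
  · simp [h]
  · rw [if_neg h, if_neg (fun h' => h h'.symm)]

variable {B : Type} [CommRing B]

/-- Change of coefficients. -/
def mapRep (h : A →+* B) (ρ : FreeGroup X →* Matrix ι ι A) : FreeGroup X →* Matrix ι ι B :=
  (h.mapMatrix : Matrix ι ι A →+* Matrix ι ι B).toMonoidHom.comp ρ

omit [Fintype X] in
theorem fox_mapRep (h : A →+* B) (ρ : FreeGroup X →* Matrix ι ι A) (w : FreeGroup X) :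
    fox (mapRep h ρ) w = (fox ρ w).map h := by
  have h2 : IsDer (mapRep h ρ) (fun w => (fox ρ w).map h) := by
    intro a b
    show (fox ρ (a * b)).map h = _
    rw [isDer_fox ρ, Matrix.map_add _ (map_add h), Matrix.map_mul]
    rfl
  refine (isDer_fox (mapRep h ρ)).ext h2 (fun x => ?_) w
  rw [fox_of]
  show unitRow B ι x = (fox ρ (FreeGroup.of x)).map h
  rw [fox_of]
  ext i q
  simp only [unitRow, Matrix.of_apply, Matrix.map_apply]
  split_ifs <;> simp

omit [Fintype X] in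
theorem jac_mapRep (h : A →+* B) (ρ : FreeGroup X →* Matrix ι ι A)
    (α : FreeGroup X →* FreeGroup X) : jac (mapRep h ρ) α = (jac ρ α).map h := by
  ext p q
  show fox (mapRep h ρ) (α (FreeGroup.of p.1)) p.2 q = _
  rw [fox_mapRep]
  rfl

end Fox

end Pool.Agent.TH79.FS
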