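import Pool.Agent.TH79.FS.Dual

/-!
Twisting a representation over dual numbers by the abelianization of the free group, and the
resulting crossed homomorphism on automorphism groups.
-/

set_option autoImplicit false
set_option linter.unusedSectionVars false
set_option linter.unusedVariables false

namespace Pool.Agent.TH79.FS

open Matrix
open scoped commutatorElement

section DMap

variable {R S : Type} [CommRing R] [CommRing S]

/-- Functoriality of the dual numbers. -/
def dmap (h : R →+* S) : DualNumber R →+* DualNumber S where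
  toFun x := TrivSqZeroExt.inl (h x.fst) + TrivSqZeroExt.inr (h x.snd)
  map_zero' := by ext <;> simp
  map_one' := by ext <;> simp
  map_add' x y := by ext <;> simp
  map_mul' x y := by ext <;> simp

@[simp] theorem fst_dmap (h : R →+* S) (x : DualNumber R) :
    TrivSqZeroExt.fst (dmap h x) = h x.fst := by simp [dmap]
@[simp] theorem snd_dmap (h : R →+* S) (x : DualNumber R) :
    TrivSqZeroExt.snd (dmap h x) = h x.snd := by simp [dmap]

variable {m n : Type}

theorem fs_dmap (h : R →+* S) (M : Matrix m n (DualNumber R)) :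
    fs (M.map (dmap h)) = (fs M).map h := by
  ext i j; simp [fs_apply]
theorem sn_dmap (h : R →+* S) (M : Matrix m n (DualNumber R)) :
    sn (M.map (dmap h)) = (sn M).map h := by
  ext i j; simp [sn_apply]

theorem dl_map [Fintype n] [DecidableEq n] (h : R →+* S) {G : Matrix n n (DualNumber R)}
    {H : Matrix n n R} (hG : H * fs G = 1) : dl (G.map (dmap h)) = h (dl G) := by
  have h1 : H.map h * fs (G.map (dmap h)) = 1 := by
    rw [fs_dmap, ← Matrix.map_mul, hG, Matrix.map_one _ (map_zero h) (map_one h)]
  rw [dl_of_left_inv h1, dl_of_left_inv hG, sn_dmap, ← Matrix.map_mul, Matrix.trace, Matrix.trace,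
    map_sum]
  rfl

theorem UT.map {a : m → ℕ} {b : n → ℕ} {s : ℕ} {M : Matrix m n R} (hM : UT a b s M)
    (h : R →+* S) : UT a b s (M.map h) := by
  intro i j hij
  rw [Matrix.map_apply, hM i j hij, map_zero]

end DMap

section Twist

variable (k : Type) [CommRing k] {P : Type} [Group P] {ι X : Type} [Fintype ι] [DecidableEq ι]

/-- The group ring of the abelianization. -/
abbrev LL (k X : Type) [CommRing k] : Type := MonoidAlgebra k (Abelianization (FreeGroup X))

variable {k}

/-- The twisted representation. -/
noncomputable def twist (R0 : P →* Matrix ι ι (DualNumber k)) (θ : FreeGroup X →* P) :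
    FreeGroup X →* Matrix ι ι (DualNumber (LL k X)) where
  toFun w := (TrivSqZeroExt.inl (MonoidAlgebra.of k _ (Abelianization.of w)) :
      DualNumber (LL k X)) • (R0 (θ w)).map (dmap MonoidAlgebra.singleOneRingHom)
  map_one' := by
    rw [map_one, map_one, map_one, map_one]
    rw [Matrix.map_one _ (map_zero _) (map_one _)]
    simp
  map_mul' a b := by
    rw [map_mul, map_mul, map_mul, map_mul, Matrix.map_mul, Matrix.smul_mul, Matrix.mul_smul,
      smul_smul, ← TrivSqZeroExt.inl_mul]

theorem twist_apply (R0 : P →* Matrix ι ι (DualNumber k)) (θ : FreeGroup X →* P)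
    (w : FreeGroup X) : twist R0 θ w =
      (TrivSqZeroExt.inl (MonoidAlgebra.of k _ (Abelianization.of w)) :
      DualNumber (LL k X)) • (R0 (θ w)).map (dmap MonoidAlgebra.singleOneRingHom) := rfl

theorem fs_twist (R0 : P →* Matrix ι ι (DualNumber k)) (θ : FreeGroup X →* P)
    (w : FreeGroup X) : fs (twist R0 θ w) =
      (MonoidAlgebra.of k _ (Abelianization.of w)) •
        (fs (R0 (θ w))).map MonoidAlgebra.singleOneRingHom := by
  ext i j
  rw [fs_apply, twist_apply]
  simp [fs_apply]

theorem sn_twist (R0 : P →* Matrix ι ι (DualNumber k)) (θ : FreeGroup X →* P)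
    (w : FreeGroup X) : sn (twist R0 θ w) =
      (MonoidAlgebra.of k _ (Abelianization.of w)) •
        (sn (R0 (θ w))).map MonoidAlgebra.singleOneRingHom := by
  ext i j
  rw [sn_apply, twist_apply]
  simp [sn_apply]

/-- The conditions on a representation of a group, as in `Good`. -/
structure PGood (e : ℕ) (lev : ι → ℕ) (R0 : P →* Matrix ι ι (DualNumber k)) : Prop where
  pA : ∀ g, UT lev lev 0 (fs (R0 g))
  pB : ∀ g ∈ derivedSeries P (e + 1), UT lev lev 1 (fs (R0 g) - 1)
  pC : ∀ g ∈ derivedSeries P (e + 2), fs (R0 g) = 1 ∧ UT lev lev 0 (sn (R0 g))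

theorem ab_of_mem {n : ℕ} {w : FreeGroup X} (hw : w ∈ derivedSeries (FreeGroup X) (n + 1)) :
    Abelianization.of w = 1 := by
  have h1 : w ∈ commutator (FreeGroup X) := by
    rw [← derivedSeries_one]
    exact derivedSeries_antitone _ (Nat.le_add_left 1 n) hw
  exact (QuotientGroup.eq_one_iff w).mpr h1

theorem smul_ut {R m n : Type} [CommRing R] {a : m → ℕ} {b : n → ℕ} {s : ℕ} {M : Matrix m n R}
    (c : R) (hM : UT a b s M) : UT a b s (c • M) := by
  intro i j h
  rw [Matrix.smul_apply, hM i j h, smul_zero]

theorem good_twist {e : ℕ} {lev : ι → ℕ} {R0 : P →* Matrix ι ι (DualNumber k)}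
    (h : PGood e lev R0) (θ : FreeGroup X →* P) : Good e lev (twist R0 θ) where
  hA w := by
    rw [fs_twist]
    exact smul_ut _ ((h.pA _).map _)
  hB w hw := by
    rw [fs_twist, ab_of_mem hw, map_one, one_smul]
    have h1 := (h.pB _ (mem_derived_of_hom θ hw)).map
      (MonoidAlgebra.singleOneRingHom (R := k) (M := Abelianization (FreeGroup X)))
    rwa [Matrix.map_sub _ (map_sub _), Matrix.map_one _ (map_zero _) (map_one _)] at h1
  hC w hw := by
    rw [fs_twist, sn_twist, ab_of_mem hw, map_one, one_smul, one_smul]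
    obtain ⟨h1, h2⟩ := h.pC _ (mem_derived_of_hom θ hw)
    exact ⟨by rw [h1, Matrix.map_one _ (map_zero _) (map_one _)], h2.map _⟩

/-- The action of an endomorphism on the group ring of the abelianization. -/
noncomputable def hact (k : Type) [CommRing k] (α : FreeGroup X →* FreeGroup X) :
    LL k X →+* LL k X := MonoidAlgebra.mapDomainRingHom k (Abelianization.map α)

theorem twist_comp (R0 : P →* Matrix ι ι (DualNumber k)) (θ : FreeGroup X →* P)
    (α : FreeGroup X →* FreeGroup X) :
    (twist R0 θ).comp α = mapRep (dmap (hact k α)) (twist R0 (θ.comp α)) := by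
  apply MonoidHom.ext
  intro w
  show twist R0 θ (α w) = (twist R0 (θ.comp α) w).map (dmap (hact k α))
  ext i j
  · rw [twist_apply, twist_apply]
    simp only [Matrix.smul_apply, Matrix.map_apply, smul_eq_mul, TrivSqZeroExt.fst_mul,
      fst_dmap, TrivSqZeroExt.fst_inl, map_mul, MonoidHom.comp_apply]
    simp [hact, MonoidAlgebra.mapDomainRingHom_apply, MonoidAlgebra.singleOneRingHom]
  · rw [twist_apply, twist_apply]
    simp only [Matrix.smul_apply, Matrix.map_apply, smul_eq_mul, DualNumber.snd_mul,
      snd_dmap, fst_dmap, TrivSqZeroExt.fst_inl, TrivSqZeroExt.snd_inl, map_mul, zero_mul,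
      add_zero, MonoidHom.comp_apply]
    simp [hact, MonoidAlgebra.mapDomainRingHom_apply, MonoidAlgebra.singleOneRingHom]

end Twist

end Pool.Agent.TH79.FS
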