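import Pool.Agent.TH79.FS.AutSide

/-!
Wild automorphisms of free solvable groups, and the value of the crossed homomorphism on them.
-/

set_option autoImplicit false
set_option linter.unusedSectionVars false
set_option linter.unusedVariables false

namespace Pool.Agent.TH79.FS

open Matrix Filter
open scoped commutatorElement

section Ind

variable {X : Type}

theorem exists_aut {d : ℕ} (α α' : FreeGroup X →* FreeGroup X)
    (h1 : ∀ x, (QuotientGroup.mk (α (α' (FreeGroup.of x))) : SG X d) =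
      QuotientGroup.mk (FreeGroup.of x))
    (h2 : ∀ x, (QuotientGroup.mk (α' (α (FreeGroup.of x))) : SG X d) =
      QuotientGroup.mk (FreeGroup.of x)) :
    ∃ φ : MulAut (SG X d), ∀ w, (QuotientGroup.mk (α w) : SG X d) = φ (QuotientGroup.mk w) := by
  have hc : ∀ β : FreeGroup X →* FreeGroup X,
      derivedSeries (FreeGroup X) d ≤ (derivedSeries (FreeGroup X) d).comap β :=
    fun β w hw => mem_derived_of_hom β hw
  let f : SG X d →* SG X d := QuotientGroup.map _ _ α (hc α)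
  let g : SG X d →* SG X d := QuotientGroup.map _ _ α' (hc α')
  have hfg : f.comp g = MonoidHom.id _ := by
    apply QuotientGroup.monoidHom_ext
    apply FreeGroup.ext_hom
    intro x
    exact h1 x
  have hgf : g.comp f = MonoidHom.id _ := by
    apply QuotientGroup.monoidHom_ext
    apply FreeGroup.ext_hom
    intro x
    exact h2 x
  exact ⟨MonoidHom.toMulEquiv f g hgf hfg, fun w => rfl⟩

variable [DecidableEq X]

/-- The words not involving `x₀`. -/
def away (x₀ : X) : Subgroup (FreeGroup X) := Subgroup.closure (FreeGroup.of '' {x | x ≠ x₀})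

/-- The endomorphism `x₀ ↦ x₀ u`. -/
def wild (x₀ : X) (u : FreeGroup X) : FreeGroup X →* FreeGroup X :=
  FreeGroup.lift (fun x => if x = x₀ then FreeGroup.of x₀ * u else FreeGroup.of x)

theorem wild_x₀ (x₀ : X) (u : FreeGroup X) :
    wild x₀ u (FreeGroup.of x₀) = FreeGroup.of x₀ * u := by simp [wild]

theorem wild_ne {x₀ x : X} (h : x ≠ x₀) (u : FreeGroup X) :
    wild x₀ u (FreeGroup.of x) = FreeGroup.of x := by simp [wild, h]

theorem wild_away {x₀ : X} (u : FreeGroup X) {w : FreeGroup X} (hw : w ∈ away x₀) :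
    wild x₀ u w = w := by
  have : away x₀ ≤ (wild x₀ u).eqLocus (MonoidHom.id _) := by
    unfold away
    rw [Subgroup.closure_le]
    rintro _ ⟨x, hx, rfl⟩
    exact wild_ne hx u
  exact this hw

theorem mk_comm {n : ℕ} {a b : FreeGroup X} (ha : a ∈ derivedSeries (FreeGroup X) n)
    (hb : b ∈ derivedSeries (FreeGroup X) n) :
    (QuotientGroup.mk (a * b * a⁻¹) : SG X (n + 1)) = QuotientGroup.mk b := by
  rw [QuotientGroup.eq]
  have : ⁅a, b⁻¹⁆ ∈ derivedSeries (FreeGroup X) (n + 1) := by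
    rw [derivedSeries_succ]
    exact Subgroup.commutator_mem_commutator ha (inv_mem hb)
  have e : (a * b * a⁻¹)⁻¹ * b = ⁅a, b⁻¹⁆ := by
    rw [commutatorElement_def]; group
  rw [e]
  exact this

theorem wild_mod {n : ℕ} (x₀ : X) {u : FreeGroup X} (hu : u ∈ derivedSeries (FreeGroup X) n)
    (w : FreeGroup X) : w⁻¹ * wild x₀ u w ∈ derivedSeries (FreeGroup X) n := by
  have h : (QuotientGroup.mk' (derivedSeries (FreeGroup X) n)).comp (wild x₀ u) =
      QuotientGroup.mk' (derivedSeries (FreeGroup X) n) := by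
    apply FreeGroup.ext_hom
    intro x
    show (QuotientGroup.mk (wild x₀ u (FreeGroup.of x)) : SG X n) = QuotientGroup.mk _
    by_cases hx : x = x₀
    · subst hx
      rw [wild_x₀]
      symm
      rw [QuotientGroup.eq]
      simpa using hu
    · rw [wild_ne hx]
  have h2 := DFunLike.congr_fun h w
  exact QuotientGroup.eq.mp h2.symm

theorem wild_wild {n : ℕ} (x₀ : X) {y : FreeGroup X}
    (hy : y ∈ derivedSeries (FreeGroup X) n) (hy0 : y ∈ away x₀) (s : FreeGroup X) (x : X) :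
    (QuotientGroup.mk (wild x₀ (s * y * s⁻¹) (wild x₀ (s * y⁻¹ * s⁻¹) (FreeGroup.of x))) :
      SG X (n + 1)) = QuotientGroup.mk (FreeGroup.of x) := by
  by_cases hx : x = x₀
  · subst hx
    have hu : s * y * s⁻¹ ∈ derivedSeries (FreeGroup X) n :=
      (derivedSeries_normal (FreeGroup X) n).conj_mem y hy s
    set α := wild x (s * y * s⁻¹) with hα
    have h1 : α y⁻¹ = y⁻¹ := wild_away _ (inv_mem hy0)
    obtain ⟨c, hc, hsc⟩ : ∃ c ∈ derivedSeries (FreeGroup X) n, α s = s * c :=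
      ⟨s⁻¹ * α s, wild_mod x hu s, by rw [mul_inv_cancel_left]⟩
    rw [wild_x₀, map_mul, map_mul, map_mul, map_inv α s, h1, hsc, hα, wild_x₀]
    have h2 := mk_comm hc (inv_mem hy)
    have e : FreeGroup.of x * (s * y * s⁻¹) * (s * c * y⁻¹ * (s * c)⁻¹) =
        FreeGroup.of x * (s * y * s⁻¹) * (s * (c * y⁻¹ * c⁻¹) * s⁻¹) := by group
    have e2 : FreeGroup.of x = FreeGroup.of x * (s * y * s⁻¹) * (s * y⁻¹ * s⁻¹) := by group
    rw [e]
    conv_rhs => rw [e2]
    rw [QuotientGroup.mk_mul, QuotientGroup.mk_mul _ (s * (c * y⁻¹ * c⁻¹)),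
      QuotientGroup.mk_mul _ s (c * y⁻¹ * c⁻¹), h2]
    rfl
  · rw [wild_ne hx, wild_ne hx]

theorem exists_wild_aut {n : ℕ} (x₀ : X) {y : FreeGroup X}
    (hy : y ∈ derivedSeries (FreeGroup X) n) (hy0 : y ∈ away x₀) (s : FreeGroup X) :
    ∃ φ : MulAut (SG X (n + 1)), ∀ w,
      (QuotientGroup.mk (wild x₀ (s * y * s⁻¹) w) : SG X (n + 1)) = φ (QuotientGroup.mk w) := by
  apply exists_aut _ (wild x₀ (s * y⁻¹ * s⁻¹))
  · exact wild_wild x₀ hy hy0 s
  · have := wild_wild x₀ (inv_mem hy) (inv_mem hy0) s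
    rwa [inv_inv] at this

end Ind

section Value

variable {X ι R : Type} [Fintype X] [DecidableEq X] [Fintype ι] [DecidableEq ι] [CommRing R]

/-- The block of the Fox derivative at `x₀`. -/
noncomputable def foxb (ρ : FreeGroup X →* Matrix ι ι R) (x₀ : X) (w : FreeGroup X) :
    Matrix ι ι R := (fox ρ w).submatrix id (fun i => (x₀, i))

theorem isDer_foxb (ρ : FreeGroup X →* Matrix ι ι R) (x₀ : X) : IsDer ρ (foxb ρ x₀) := by
  intro a b
  ext i j
  show fox ρ (a * b) i (x₀, j) = _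
  rw [isDer_fox ρ]
  rfl

theorem foxb_of (ρ : FreeGroup X →* Matrix ι ι R) (x₀ : X) :
    foxb ρ x₀ (FreeGroup.of x₀) = 1 := by
  ext i j
  show fox ρ (FreeGroup.of x₀) i (x₀, j) = _
  rw [fox_of, Matrix.one_apply]
  simp [unitRow, eq_comm]

theorem foxb_away (ρ : FreeGroup X →* Matrix ι ι R) (x₀ : X) {w : FreeGroup X}
    (hw : w ∈ away x₀) : foxb ρ x₀ w = 0 := by
  have hd := isDer_foxb ρ x₀
  let H : Subgroup (FreeGroup X) :=
    { carrier := {w | foxb ρ x₀ w = 0}
      one_mem' := hd.one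
      mul_mem' := by
        intro a b ha hb
        show foxb ρ x₀ (a * b) = 0
        rw [hd, show foxb ρ x₀ a = 0 from ha, show foxb ρ x₀ b = 0 from hb, Matrix.mul_zero,
          add_zero]
      inv_mem' := by
        intro a ha
        show foxb ρ x₀ a⁻¹ = 0
        rw [hd.inv, show foxb ρ x₀ a = 0 from ha, Matrix.mul_zero, neg_zero] }
  have h : away x₀ ≤ H := by
    unfold away
    rw [Subgroup.closure_le]
    rintro _ ⟨x, hx, rfl⟩
    show foxb ρ x₀ (FreeGroup.of x) = 0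
    ext i j
    show fox ρ (FreeGroup.of x) i (x₀, j) = 0
    rw [fox_of]
    simp only [unitRow, Matrix.of_apply]
    rw [if_neg]
    intro h
    exact hx (Prod.ext_iff.mp h).1.symm
  exact h hw

theorem foxb_pow (ρ : FreeGroup X →* Matrix ι ι R) (x₀ : X) (m : ℕ) :
    foxb ρ x₀ (FreeGroup.of x₀ ^ m) = ∑ j ∈ Finset.range m, ρ (FreeGroup.of x₀) ^ j := by
  have hd := isDer_foxb ρ x₀
  induction m with
  | zero => rw [pow_zero, hd.one]; simp
  | succ m ih =>
    rw [pow_succ, hd, ih, foxb_of, Matrix.mul_one, map_pow, Finset.sum_range_succ]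

theorem der_conj {κ : Type} {ρ : FreeGroup X →* Matrix ι ι R} {δ : FreeGroup X → Matrix ι κ R}
    (hd : IsDer ρ δ) (s y : FreeGroup X) :
    δ (s * y * s⁻¹) = (1 - ρ (s * y * s⁻¹)) * δ s + ρ s * δ y := by
  rw [hd (s * y) s⁻¹, hd s y, hd.inv]
  simp only [map_mul, Matrix.sub_mul, Matrix.one_mul, Matrix.mul_neg, Matrix.mul_assoc]
  abel

/-- Value of the logarithmic determinant for `x₀ ↦ x₀ s y s⁻¹`. -/
theorem dl_wild (ρ : FreeGroup X →* Matrix ι ι (DualNumber R)) (x₀ : X) {y : FreeGroup X}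
    (hy0 : y ∈ away x₀) (hy : fs (ρ y) = 1) (s : FreeGroup X) :
    dl (jac ρ (wild x₀ (s * y * s⁻¹))) =
      -(fs (ρ (FreeGroup.of x₀)) * (fs (ρ s) * sn (ρ y) * fs (ρ s⁻¹)) *
        fs (foxb ρ x₀ s)).trace := by
  set u := s * y * s⁻¹ with hu
  set N : Matrix (X × ι) (X × ι) (DualNumber R) :=
    Matrix.of fun p q => if p.1 = x₀ then (ρ (FreeGroup.of x₀) * fox ρ u) p.2 q else 0 with hN
  have hd := isDer_fox ρ
  have hdb := isDer_foxb ρ x₀
  have hG : jac ρ (wild x₀ u) = 1 + N := by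
    ext1 p q
    show fox ρ (wild x₀ u (FreeGroup.of p.1)) p.2 q = _
    rw [Matrix.add_apply]
    have h1 : unitRow (DualNumber R) ι p.1 p.2 q = (1 : Matrix (X × ι) (X × ι) (DualNumber R)) p q
        := by
      rw [← jac_id ρ]
      show _ = fox ρ (FreeGroup.of p.1) p.2 q
      rw [fox_of]
    by_cases hp : p.1 = x₀
    · rw [hp, wild_x₀, hd, fox_of, Matrix.add_apply]
      rw [hp] at h1
      rw [h1, hN, Matrix.of_apply, if_pos hp]
    · rw [wild_ne hp, fox_of, h1, hN, Matrix.of_apply, if_neg hp, add_zero]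
  have hfu : fs (ρ u) = 1 := by
    rw [hu, map_mul, map_mul, fs_mul, fs_mul, hy, Matrix.mul_one, ← fs_mul, ← map_mul,
      mul_inv_cancel, map_one, fs_one]
  have hsu : sn (ρ u) = fs (ρ s) * sn (ρ y) * fs (ρ s⁻¹) := by
    have h0 : sn (ρ (s * s⁻¹)) = 0 := by rw [mul_inv_cancel, map_one, sn_one]
    rw [map_mul, sn_mul] at h0
    rw [hu, map_mul, map_mul, sn_mul, sn_mul, fs_mul, hy, Matrix.mul_one, Matrix.mul_one,
      Matrix.add_mul]
    calc _ = (fs (ρ s) * sn (ρ s⁻¹) + sn (ρ s) * fs (ρ s⁻¹)) +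
          fs (ρ s) * sn (ρ y) * fs (ρ s⁻¹) := by abel
      _ = _ := by rw [h0, zero_add]
  -- the block at `x₀`
  have hb : foxb ρ x₀ u = (1 - ρ u) * foxb ρ x₀ s := by
    rw [hu, der_conj hdb, foxb_away ρ x₀ hy0, Matrix.mul_zero, add_zero]
  have hbf : fs (foxb ρ x₀ u) = 0 := by
    rw [hb, fs_mul, fs_sub, fs_one, hfu, sub_self, Matrix.zero_mul]
  have hNz : ∀ p i, fs N p (x₀, i) = 0 := by
    intro p i
    rw [fs_apply, hN, Matrix.of_apply]
    split_ifs with hp
    · have h1 : (ρ (FreeGroup.of x₀) * fox ρ u) p.2 (x₀, i) =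
          (ρ (FreeGroup.of x₀) * foxb ρ x₀ u) p.2 i := rfl
      rw [h1, ← fs_apply, fs_mul, hbf, Matrix.mul_zero]
      rfl
    · simp
  have hNN : ∀ M : Matrix (X × ι) (X × ι) R, (∀ p q, p.1 ≠ x₀ → M p q = 0) → fs N * M = 0 := by
    intro M hM
    ext p q
    rw [Matrix.mul_apply]
    refine Finset.sum_eq_zero fun r _ => ?_
    by_cases hr : r.1 = x₀
    · have : fs N p r = 0 := by
        have := hNz p r.2
        rwa [← hr] at this
      rw [this, zero_mul]
    · rw [hM r q hr, mul_zero]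
  have h1 : fs N * fs N = 0 := hNN _ (by
    intro p q hp
    rw [fs_apply, hN, Matrix.of_apply, if_neg hp]
    simp)
  have h2 : fs N * sn N = 0 := hNN _ (by
    intro p q hp
    rw [sn_apply, hN, Matrix.of_apply, if_neg hp]
    simp)
  have hinv : (1 - fs N) * fs (jac ρ (wild x₀ u)) = 1 := by
    rw [hG, fs_add, fs_one, Matrix.mul_add, Matrix.mul_one, Matrix.sub_mul, h1, Matrix.one_mul]
    abel
  rw [dl_of_left_inv hinv, hG, sn_add, sn_one, zero_add, Matrix.sub_mul, h2, sub_zero,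
    Matrix.one_mul]
  have h3 : (sn N).trace = (sn (ρ (FreeGroup.of x₀) * foxb ρ x₀ u)).trace := by
    rw [Matrix.trace, Matrix.trace, Fintype.sum_prod_type]
    rw [Finset.sum_eq_single x₀]
    · refine Finset.sum_congr rfl fun i _ => ?_
      rw [Matrix.diag_apply, Matrix.diag_apply, sn_apply, hN, Matrix.of_apply, if_pos rfl]
      rfl
    · intro x _ hx
      refine Finset.sum_eq_zero fun i _ => ?_
      rw [Matrix.diag_apply, sn_apply, hN, Matrix.of_apply, if_neg hx]
      simp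
    · intro h
      exact (h (Finset.mem_univ _)).elim
  rw [h3, sn_mul, hbf, Matrix.mul_zero, add_zero, hb, sn_mul, fs_sub, fs_one, hfu, sub_self,
    Matrix.zero_mul, zero_add, sn_sub, sn_one, zero_sub, hsu]
  rw [← Matrix.trace_neg]
  congr 1
  rw [Matrix.mul_assoc (fs (ρ (FreeGroup.of x₀)))]
  simp only [Matrix.neg_mul, Matrix.mul_neg]

end Value

end Pool.Agent.TH79.FS
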