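import Pool.Agent.TH79.FS.Base

/-!
Wreath products with the cyclic group of order three: the induction step on the derived length.
-/

set_option autoImplicit false
set_option linter.unusedSectionVars false
set_option linter.unusedVariables false

namespace Pool.Agent.TH79.FS

open Matrix Filter
open scoped commutatorElement

/-- The wreath product of `P` with `ZMod 3`. -/
@[ext] structure Wr (P : Type) where
  f : ZMod 3 → P
  j : ZMod 3

namespace Wr

variable {P : Type} [Group P]

instance : Mul (Wr P) := ⟨fun a b => ⟨fun p => a.f p * b.f (p - a.j), a.j + b.j⟩⟩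
instance : One (Wr P) := ⟨⟨1, 0⟩⟩
instance : Inv (Wr P) := ⟨fun a => ⟨fun p => (a.f (p + a.j))⁻¹, -a.j⟩⟩

theorem mul_f (a b : Wr P) (p : ZMod 3) : (a * b).f p = a.f p * b.f (p - a.j) := rfl
theorem mul_j (a b : Wr P) : (a * b).j = a.j + b.j := rfl
theorem one_f (p : ZMod 3) : (1 : Wr P).f p = 1 := rfl
theorem one_j : (1 : Wr P).j = 0 := rfl
theorem inv_f (a : Wr P) (p : ZMod 3) : (a⁻¹).f p = (a.f (p + a.j))⁻¹ := rfl
theorem inv_j (a : Wr P) : (a⁻¹).j = -a.j := rfl

instance : Group (Wr P) :=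
  Group.ofLeftAxioms
    (by
      intro a b c
      ext1
      · funext p
        simp only [mul_f, mul_j, mul_assoc, sub_sub]
      · simp only [mul_j, add_assoc])
    (by
      intro a
      ext1
      · funext p
        simp only [mul_f, one_f, one_j, one_mul, sub_zero]
      · simp only [mul_j, one_j, zero_add])
    (by
      intro a
      ext1
      · funext p
        simp only [mul_f, inv_f, inv_j, one_f, sub_neg_eq_add, inv_mul_cancel]
      · simp only [mul_j, inv_j, one_j, neg_add_cancel])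

/-- The base group. -/
def inc : (ZMod 3 → P) →* Wr P where
  toFun f := ⟨f, 0⟩
  map_one' := rfl
  map_mul' f g := by
    ext1
    · funext p
      simp [mul_f]
    · simp [mul_j]

theorem inc_f (f : ZMod 3 → P) (p : ZMod 3) : (inc f).f p = f p := rfl
theorem inc_j (f : ZMod 3 → P) : (inc f).j = 0 := rfl

instance [Finite P] : Finite (Wr P) := by
  have : Function.Injective (fun a : Wr P => (a.f, a.j)) := by
    intro a b h
    rw [Prod.mk.injEq] at h
    exact Wr.ext h.1 h.2
  exact Finite.of_injective _ this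

/-- The elements of the base group with coordinates in the derived subgroup of step `n`. -/
def K (P : Type) [Group P] (n : ℕ) : Subgroup (Wr P) where
  carrier := {g | g.j = 0 ∧ ∀ p, g.f p ∈ derivedSeries P n}
  one_mem' := ⟨rfl, fun p => one_mem _⟩
  mul_mem' := by
    rintro a b ⟨ha, ha'⟩ ⟨hb, hb'⟩
    exact ⟨by rw [mul_j, ha, hb, add_zero], fun p => mul_mem (ha' p) (hb' _)⟩
  inv_mem' := by
    rintro a ⟨ha, ha'⟩
    exact ⟨by rw [inv_j, ha, neg_zero], fun p => inv_mem (ha' _)⟩

theorem derived_le (n : ℕ) : derivedSeries (Wr P) (n + 1) ≤ K P n := by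
  induction n with
  | zero =>
    rw [derivedSeries_succ, Subgroup.commutator_le]
    intro g _ h _
    refine ⟨?_, fun p => Subgroup.mem_top _⟩
    rw [commutatorElement_def, mul_j, mul_j, mul_j, inv_j, inv_j]
    abel
  | succ n ih =>
    rw [derivedSeries_succ, Subgroup.commutator_le]
    intro g hg h hh
    obtain ⟨g0, g1⟩ := ih hg
    obtain ⟨h0, h1⟩ := ih hh
    refine ⟨?_, fun p => ?_⟩
    · rw [commutatorElement_def, mul_j, mul_j, mul_j, inv_j, inv_j]
      abel
    · have e : ⁅g, h⁆.f p = ⁅g.f p, h.f p⁆ := by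
        rw [commutatorElement_def, commutatorElement_def, mul_f, mul_f, mul_f, inv_f, inv_f,
          mul_j, mul_j, inv_j, g0, h0]
        simp [mul_j, g0, h0]
      rw [e, derivedSeries_succ]
      exact Subgroup.commutator_mem_commutator (g1 p) (h1 p)

variable {ι R : Type} [Fintype ι] [DecidableEq ι] [CommRing R]

/-- The induced monomial representation. -/
def RW (R0 : P →* Matrix ι ι R) : Wr P →* Matrix (ZMod 3 × ι) (ZMod 3 × ι) R where
  toFun g := Matrix.of fun p q => if q.1 = p.1 - g.j then R0 (g.f p.1) p.2 q.2 else 0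
  map_one' := by
    ext p q
    obtain ⟨p, i⟩ := p
    obtain ⟨q, l⟩ := q
    simp only [Matrix.of_apply, one_j, one_f, sub_zero, map_one, Matrix.one_apply, Prod.mk.injEq]
    by_cases h : q = p
    · subst h; simp
    · rw [if_neg h, if_neg (fun h' => h h'.1.symm)]
  map_mul' g h := by
    ext p q
    obtain ⟨p, i⟩ := p
    obtain ⟨q, l⟩ := q
    simp only [Matrix.of_apply, mul_j, mul_f, map_mul, Matrix.mul_apply, Fintype.sum_prod_type]
    rw [Finset.sum_eq_single (p - g.j)]
    · by_cases hq : q = p - (g.j + h.j)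
      · rw [if_pos hq]
        refine Finset.sum_congr rfl fun k _ => ?_
        rw [if_pos rfl, if_pos (by rw [hq]; abel)]
      · rw [if_neg hq]
        symm
        refine Finset.sum_eq_zero fun k _ => ?_
        rw [if_neg (fun h' : q = p - g.j - h.j => hq (by rw [h']; abel)), mul_zero]
    · intro s _ hs
      refine Finset.sum_eq_zero fun k _ => ?_
      rw [if_neg hs, zero_mul]
    · intro h'
      exact (h' (Finset.mem_univ _)).elim

theorem RW_apply (R0 : P →* Matrix ι ι R) (g : Wr P) (p q : ZMod 3 × ι) :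
    RW R0 g p q = if q.1 = p.1 - g.j then R0 (g.f p.1) p.2 q.2 else 0 := rfl

end Wr

section Step

variable {P ι R : Type} [Group P] [Fintype ι] [DecidableEq ι] [CommRing R]

theorem fs_RW (R0 : P →* Matrix ι ι (DualNumber R)) (g : Wr P) (p q : ZMod 3 × ι) :
    fs (Wr.RW R0 g) p q = if q.1 = p.1 - g.j then fs (R0 (g.f p.1)) p.2 q.2 else 0 := by
  rw [fs_apply, Wr.RW_apply]
  split_ifs
  · rfl
  · simp

theorem sn_RW (R0 : P →* Matrix ι ι (DualNumber R)) (g : Wr P) (p q : ZMod 3 × ι) :
    sn (Wr.RW R0 g) p q = if q.1 = p.1 - g.j then sn (R0 (g.f p.1)) p.2 q.2 else 0 := by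
  rw [sn_apply, Wr.RW_apply]
  split_ifs
  · rfl
  · simp

theorem pgood_RW {e : ℕ} {lev : ι → ℕ} {R0 : P →* Matrix ι ι (DualNumber R)}
    (h : PGood e lev R0) : PGood (e + 1) (fun p : ZMod 3 × ι => lev p.2) (Wr.RW R0) where
  pA g := by
    intro p q hpq
    rw [fs_RW]
    split_ifs
    · exact h.pA _ _ _ hpq
    · rfl
  pB g hg := by
    obtain ⟨h0, h1⟩ := Wr.derived_le _ hg
    intro p q hpq
    rw [Matrix.sub_apply, fs_RW, h0, sub_zero]
    by_cases hq : q.1 = p.1
    · rw [if_pos hq]
      have h2 := h.pB _ (h1 p.1) p.2 q.2 hpq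
      rw [Matrix.sub_apply] at h2
      have h3 : (1 : Matrix (ZMod 3 × ι) (ZMod 3 × ι) R) p q = (1 : Matrix ι ι R) p.2 q.2 := by
        rw [Matrix.one_apply, Matrix.one_apply]
        by_cases h4 : p.2 = q.2
        · rw [if_pos h4, if_pos (Prod.ext hq.symm h4)]
        · rw [if_neg h4, if_neg (fun h5 => h4 (by rw [h5]))]
      rw [h3, h2]
    · rw [if_neg hq, Matrix.one_apply, if_neg (fun h5 => hq (by rw [h5])), sub_zero]
  pC g hg := by
    obtain ⟨h0, h1⟩ := Wr.derived_le _ hg
    constructor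
    · ext p q
      rw [fs_RW, h0, sub_zero]
      by_cases hq : q.1 = p.1
      · rw [if_pos hq, (h.pC _ (h1 p.1)).1, Matrix.one_apply, Matrix.one_apply]
        by_cases h4 : p.2 = q.2
        · rw [if_pos h4, if_pos (Prod.ext hq.symm h4)]
        · rw [if_neg h4, if_neg (fun h5 => h4 (by rw [h5]))]
      · rw [if_neg hq, Matrix.one_apply, if_neg (fun h5 => hq (by rw [h5]))]
    · intro p q hpq
      rw [sn_RW]
      split_ifs
      · exact (h.pC _ (h1 p.1)).2 _ _ hpq
      · rfl

theorem trace_RW (R0 : P →* Matrix ι ι (DualNumber R)) (f g : ZMod 3 → P) :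
    (sn (Wr.RW R0 (Wr.inc f)) * fs (Wr.RW R0 (Wr.inc g))).trace =
      ∑ p, (sn (R0 (f p)) * fs (R0 (g p))).trace := by
  rw [Matrix.trace, Fintype.sum_prod_type]
  refine Finset.sum_congr rfl fun p _ => ?_
  rw [Matrix.trace]
  refine Finset.sum_congr rfl fun i _ => ?_
  rw [Matrix.diag_apply, Matrix.diag_apply, Matrix.mul_apply, Matrix.mul_apply,
    Fintype.sum_prod_type, Finset.sum_eq_single p]
  · refine Finset.sum_congr rfl fun k _ => ?_
    rw [sn_RW, fs_RW]
    simp [Wr.inc_j, Wr.inc_f]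
  · intro q _ hq
    refine Finset.sum_eq_zero fun k _ => ?_
    rw [sn_RW, Wr.inc_j, sub_zero, if_neg hq, zero_mul]
  · intro h
    exact (h (Finset.mem_univ _)).elim

/-- The logarithmic determinant as a homomorphism. -/
def tau (R0 : P →* Matrix ι ι (DualNumber R)) : P →* Multiplicative R where
  toFun g := Multiplicative.ofAdd (fs (R0 g⁻¹) * sn (R0 g)).trace
  map_one' := by
    rw [map_one, sn_one, Matrix.mul_zero, Matrix.trace_zero]
    rfl
  map_mul' g h := by
    rw [← ofAdd_add]
    congr 1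
    have hg : fs (R0 g⁻¹) * fs (R0 g) = 1 := by
      rw [← fs_mul, ← map_mul, inv_mul_cancel, map_one, fs_one]
    have hh : fs (R0 h) * fs (R0 h⁻¹) = 1 := by
      rw [← fs_mul, ← map_mul, mul_inv_cancel, map_one, fs_one]
    rw [_root_.mul_inv_rev, map_mul, map_mul, fs_mul, sn_mul, Matrix.mul_add, Matrix.trace_add]
    have e1 : fs (R0 h⁻¹) * fs (R0 g⁻¹) * (fs (R0 g) * sn (R0 h)) = fs (R0 h⁻¹) * sn (R0 h) := by
      rw [Matrix.mul_assoc, ← Matrix.mul_assoc (fs (R0 g⁻¹)), hg, Matrix.one_mul]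
    have e2 : (fs (R0 h⁻¹) * fs (R0 g⁻¹) * (sn (R0 g) * fs (R0 h))).trace =
        (fs (R0 g⁻¹) * sn (R0 g)).trace := by
      rw [Matrix.mul_assoc, Matrix.trace_mul_comm, ← Matrix.mul_assoc, Matrix.mul_assoc, hh,
        Matrix.mul_one]
    rw [e1, e2, add_comm]

theorem trace_sn_eq_zero {e : ℕ} {lev : ι → ℕ} {R0 : P →* Matrix ι ι (DualNumber R)}
    (h : PGood e lev R0) {g : P} (hg : g ∈ derivedSeries P (e + 2)) :
    (sn (R0 g)).trace = 0 := by
  have h1 : g ∈ commutator P := by
    rw [← derivedSeries_one]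
    exact derivedSeries_antitone _ (by omega) hg
  have h2 : tau R0 g = 1 := Abelianization.commutator_subset_ker (tau R0) h1
  have h3 : (fs (R0 g⁻¹) * sn (R0 g)).trace = 0 := h2
  rwa [(h.pC _ (inv_mem hg)).1, Matrix.one_mul] at h3

/-- Homomorphisms into the commutator subgroup raise the derived series. -/
theorem map_derived_succ {G H : Type} [Group G] [Group H] (f : G →* H)
    (hf : ∀ g, f g ∈ derivedSeries H 1) (n : ℕ) :
    (derivedSeries G n).map f ≤ derivedSeries H (n + 1) := by
  induction n with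
  | zero =>
    rintro _ ⟨g, _, rfl⟩
    exact hf g
  | succ n ih =>
    rw [derivedSeries_succ, Subgroup.map_commutator, derivedSeries_succ]
    exact Subgroup.commutator_mono ih ih

/-- The commutator of the two generators. -/
def ww : FreeGroup (Fin 2) := ⁅(FreeGroup.of 1 : FreeGroup (Fin 2)), (FreeGroup.of 0 : FreeGroup (Fin 2))⁆

/-- The conjugate of the inverse. -/
def ww' : FreeGroup (Fin 2) := ((FreeGroup.of 1)⁻¹ * ww * FreeGroup.of 1)⁻¹

/-- The substitution. -/
def sig : FreeGroup (Fin 2) →* FreeGroup (Fin 2) := FreeGroup.lift ![ww', ww]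

theorem ww_mem : ww ∈ derivedSeries (FreeGroup (Fin 2)) 1 := by
  rw [derivedSeries_one]
  exact Subgroup.commutator_mem_commutator (Subgroup.mem_top _) (Subgroup.mem_top _)

theorem ww'_mem : ww' ∈ derivedSeries (FreeGroup (Fin 2)) 1 := by
  have h2 := (derivedSeries_normal (FreeGroup (Fin 2)) 1).conj_mem _ ww_mem (FreeGroup.of 1)⁻¹
  rw [inv_inv] at h2
  exact inv_mem h2

theorem sig_mem (g : FreeGroup (Fin 2)) : sig g ∈ derivedSeries (FreeGroup (Fin 2)) 1 := by
  have h : sig.range ≤ derivedSeries (FreeGroup (Fin 2)) 1 := by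
    rw [sig, FreeGroup.range_lift_eq_closure, Subgroup.closure_le]
    rintro _ ⟨i, rfl⟩
    fin_cases i
    · exact ww'_mem
    · exact ww_mem
  exact h ⟨g, rfl⟩

theorem dat_succ {e : ℕ} (hd : Dat e) : Dat (e + 1) := by
  obtain ⟨P, _, _, ι, _, _, lev, R0, hgood, a, b, c, y, hy, htr⟩ := hd
  let fa : ZMod 3 → P := ![1, a, b]
  let A : Wr P := Wr.inc fa
  let B : Wr P := ⟨1, 1⟩
  let fc : ZMod 3 → P := ![c, 1, 1]
  let L : FreeGroup (Fin 2) →* Wr P := FreeGroup.lift ![A, B]
  have hww : L ww = Wr.inc (fun p => fa (p - 1) * (fa p)⁻¹) := by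
    have : L ww = ⁅B, A⁆ := by
      simp only [ww, map_commutatorElement, L, FreeGroup.lift_apply_of]
      rfl
    rw [this, commutatorElement_def]
    ext1
    · funext p
      simp [Wr.mul_f, Wr.inv_f, Wr.mul_j, Wr.inv_j, A, B, Wr.inc_f, Wr.inc_j]
    · simp [Wr.mul_j, Wr.inv_j, A, B, Wr.inc_j]
  have hww' : L ww' = Wr.inc (fun p => (fa p * (fa (p + 1))⁻¹)⁻¹) := by
    have h1 : L ww' = (B⁻¹ * L ww * B)⁻¹ := by
      simp only [ww', map_inv, map_mul, L, FreeGroup.lift_apply_of]
      rfl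
    rw [h1, hww]
    ext1
    · funext p
      simp [Wr.mul_f, Wr.inv_f, Wr.inv_j, B, Wr.inc_f, Wr.inc_j]
    · simp [Wr.mul_j, Wr.inv_j, B, Wr.inc_j]
  let Th : FreeGroup (Fin 2) →* (ZMod 3 → P) :=
    FreeGroup.lift ![fun p => (fa p * (fa (p + 1))⁻¹)⁻¹, fun p => fa (p - 1) * (fa p)⁻¹]
  have hTh : L.comp sig = Wr.inc.comp Th := by
    apply FreeGroup.ext_hom
    intro i
    fin_cases i
    · show L (sig (FreeGroup.of 0)) = Wr.inc (Th (FreeGroup.of 0))
      simp only [sig, Th, FreeGroup.lift_apply_of]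
      exact hww'
    · show L (sig (FreeGroup.of 1)) = Wr.inc (Th (FreeGroup.of 1))
      simp only [sig, Th, FreeGroup.lift_apply_of]
      exact hww
  have hTh0 : ∀ w, Th w 0 = FreeGroup.lift ![a, b] w := by
    intro w
    have : (Pi.evalMonoidHom (fun _ : ZMod 3 => P) 0).comp Th = FreeGroup.lift ![a, b] := by
      apply FreeGroup.ext_hom
      intro i
      fin_cases i
      · show Th (FreeGroup.of 0) 0 = FreeGroup.lift ![a, b] (FreeGroup.of 0)
        simp only [Th, FreeGroup.lift_apply_of]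
        show (fa 0 * (fa 1)⁻¹)⁻¹ = a
        show ((1 : P) * a⁻¹)⁻¹ = a
        simp
      · show Th (FreeGroup.of 1) 0 = FreeGroup.lift ![a, b] (FreeGroup.of 1)
        simp only [Th, FreeGroup.lift_apply_of]
        show fa 2 * (fa 0)⁻¹ = b
        show b * (1 : P)⁻¹ = b
        simp
    exact DFunLike.congr_fun this w
  have hThp : ∀ p, Th y p ∈ derivedSeries P (e + 2) := fun p =>
    mem_derived_of_hom ((Pi.evalMonoidHom (fun _ : ZMod 3 => P) p).comp Th) hy
  refine ⟨Wr P, inferInstance, inferInstance, ZMod 3 × ι, inferInstance, inferInstance,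
    fun p => lev p.2, Wr.RW R0, pgood_RW hgood, A, B, Wr.inc fc, sig y, ?_, ?_⟩
  · exact map_derived_succ sig sig_mem (e + 2) (Subgroup.mem_map_of_mem sig hy)
  · intro m hm
    have h1 : FreeGroup.lift ![A, B] (sig y) = Wr.inc (Th y) := DFunLike.congr_fun hTh y
    rw [h1, ← fs_pow, ← map_pow, ← map_pow, trace_RW]
    have h2 : ∀ p : ZMod 3, p ≠ 0 →
        (sn (R0 (Th y p)) * fs (R0 ((fc ^ m) p))).trace = 0 := by
      intro p hp
      have h3 : (fc ^ m) p = 1 := by
        rw [Pi.pow_apply]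
        have : fc p = 1 := by
          fin_cases p
          · exact (hp rfl).elim
          · rfl
          · rfl
        rw [this, one_pow]
      rw [h3, map_one, fs_one, Matrix.mul_one]
      exact trace_sn_eq_zero hgood (hThp p)
    rw [Finset.sum_eq_single 0 (fun p _ hp => h2 p hp) (fun h => (h (Finset.mem_univ _)).elim),
      hTh0, Pi.pow_apply, map_pow, fs_pow]
    exact htr m hm

theorem dat_all (e : ℕ) : Dat e := by
  induction e with
  | zero => exact dat_zero
  | succ e ih => exact dat_succ ih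

end Step

end Pool.Agent.TH79.FS
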